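import Pool.Agent.H440.TF.Num

/-! # Thin families of Hecke characters of a given type: the zeros (helper440)

Adapted from `Pool.Agent.Helper503_HW.AsmD`, where the characters are of finite order. -/

set_option autoImplicit false
set_option linter.unusedSectionVars false

open NumberField Filter Topology MeasureTheory

namespace Pool.Agent.H440.TF

open Pool.Agent.Y773 (TPos LI cc)
open Pool.Agent.Y767 (Mq Cls cls cK finite_dual)
open Pool.Agent.Y773.IQ (absNorm_pos' tM LL LL_eq)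
open Pool.Agent.N784.AD (pi1)
open Pool.Agent.N784.HC (FamN FamN_norm_le Dn cdN cdN_spec CTyp)
open Pool.Agent.Helper503_HW (msqD coreD)
open Pool.Agent.Y773.AB (Gw kap constsW)
open H370 (zset NN Ns Nd)
open H385 (Rw)

section

variable (K : Type) [Field K] [NumberField K]

/-- the index type: moduli and large groups of characters -/
structure Idx (n : (K →+* ℂ) → ℕ) (δ N2 : ℝ) where
  q : Ideal (𝓞 K)
  bot : q ≠ ⊥
  top : q ≠ ⊤
  H : Subgroup (Cls (pi1 top) →* ℂˣ)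
  F : Mq q →* ℂˣ
  mem : F ∈ Dn n top
  big : N2 ≤ (Ideal.absNorm q : ℝ)
  large : (Ideal.absNorm q : ℝ) ^ δ ≤ Nat.card H

theorem mainT {nt : (K →+* ℂ) → ℕ} (hnt : CTyp nt) (δ : ℝ) (hδ : 2 / 3 < δ) (hδ1 : δ < 1) (ε : ℝ)
    (hε : 0 < ε) : ∃ η X₀ : ℝ, 0 < η ∧ ∀ (𝔮 : Ideal (𝓞 K)) (_ : 𝔮 ≠ ⊥) (htop : 𝔮 ≠ ⊤)
      (H : Subgroup (Cls (pi1 htop) →* ℂˣ)) (F₁ : Mq 𝔮 →* ℂˣ), F₁ ∈ Dn nt htop →
      X₀ ≤ (Ideal.absNorm 𝔮 : ℝ) →
      (Ideal.absNorm 𝔮 : ℝ) ^ δ ≤ Nat.card H →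
      ∃ S : Finset (Ideal (𝓞 K) →*₀ ℂ), (∀ ψ, ψ ∈ S ↔ ψ ∈ FamT nt htop H F₁) ∧
      S.Nonempty ∧ 1 ≤ Real.log (Ideal.absNorm 𝔮) ∧
      ∀ T : ℝ, (Real.log (Ideal.absNorm 𝔮)) ^ 2 ≤ T → T ≤ (Ideal.absNorm 𝔮 : ℝ) ^ η →
        1 ≤ T ∧ (∀ ψ ∈ S, (zset (LL K ψ) T (2 * T)).Finite) ∧
        ∑ ψ ∈ S, (2 * (NN (LL K ψ) T (2 * T) : ℝ) - (Ns (LL K ψ) T (2 * T) : ℝ)) ≤
          (kap δ + ε) * ∑ ψ ∈ S, (NN (LL K ψ) T (2 * T) : ℝ) ∧
        ∑ ψ ∈ S, (3 * (NN (LL K ψ) T (2 * T) : ℝ) - 2 * (Nd (LL K ψ) T (2 * T) : ℝ)) ≤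
          (kap δ + ε) * ∑ ψ ∈ S, (NN (LL K ψ) T (2 * T) : ℝ) := by
  classical
  have hδ0 : 0 < δ := by linarith
  obtain ⟨γ, s, h0, hπ, hs, hs1, hs5, hs13, hR0, hI0, hcy, hconst⟩ := constsW δ hδ hδ1 ε hε
  obtain ⟨A, hA, hgood⟩ := goodA K hnt
  obtain ⟨n, hn⟩ : ∃ n : ℝ, n = (Module.finrank ℚ K : ℝ) := ⟨_, rfl⟩
  have hn1 : 1 ≤ n := by
    have := Module.finrank_pos (R := ℚ) (M := K)
    rw [hn]; exact_mod_cast this
  have hn0 : 0 < n := by linarith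
  rw [← hn] at hgood
  obtain ⟨N2, hN2, hnum⟩ := numT K nt δ s hδ0 hs (by linarith) hs1.le
  obtain ⟨b0, hb0⟩ : ∃ b0 : ℝ, b0 = 2 * δ - 5 * s := ⟨_, rfl⟩
  rw [← hb0] at hcy hconst
  have hb00 : 0 < b0 := by rw [hb0]; linarith
  obtain ⟨β, hβd⟩ : ∃ β : ℝ, β = n / 2 * b0 := ⟨_, rfl⟩
  have hβ : 0 < β := by rw [hβd]; positivity
  obtain ⟨θ, hθ⟩ : ∃ θ : ℝ, θ = 1 - δ + s := ⟨_, rfl⟩
  obtain ⟨θ', hθ'⟩ : ∃ θ' : ℝ, θ' = 1 - δ + 2 * s := ⟨_, rfl⟩
  obtain ⟨cw, C2, hcw, hC2, hthin⟩ := ls_thinT K nt θ θ'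
    (by rw [hθ]; linarith) (by rw [hθ, hθ']; linarith) (by rw [hθ']; exact hs13)
  have hNj : ∀ j : Idx K nt δ N2, (3 : ℝ) ≤ (Ideal.absNorm j.q : ℝ) := fun j => hN2.trans j.big
  have hfin : ∀ j : Idx K nt δ N2, (FamT nt j.top j.H j.F).Finite := fun j =>
    FamT_finite j.bot j.top j.H j.F
  have hmem : ∀ j : Idx K nt δ N2, ∀ ψ, ψ ∈ (hfin j).toFinset ↔ ψ ∈ FamT nt j.top j.H j.F := fun j ψ =>
    (hfin j).mem_toFinset
  have hncard : ∀ j : Idx K nt δ N2, ((FamT nt j.top j.H j.F).ncard : ℝ) = ((hfin j).toFinset.card : ℝ) :=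
    fun j => by rw [Set.ncard_eq_toFinset_card _ (hfin j)]
  have hN0 : ∀ j : Idx K nt δ N2, (0 : ℝ) < (Ideal.absNorm j.q : ℝ) := fun j => by linarith [hNj j]
  have hne : ∀ j : Idx K nt δ N2, ((hfin j).toFinset).Nonempty := by
    intro j
    have h1 := (hnum j.q j.bot j.top j.H j.F j.mem j.big j.large).2.1
    rw [hncard j] at h1
    have h3 : 0 < ((hfin j).toFinset.card : ℝ) := lt_of_lt_of_le
      (mul_pos (by norm_num) (Real.rpow_pos_of_pos (hN0 j) _)) h1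
    exact Finset.card_pos.mp (by exact_mod_cast h3)
  have hcard : ∀ j : Idx K nt δ N2, (0 : ℝ) < ((hfin j).toFinset.card : ℝ) := fun j => by
    exact_mod_cast Finset.card_pos.mpr (hne j)
  have hni : 0 < 1 / n := by positivity
  have hni1 : 1 / n ≤ 1 := by rw [div_le_one hn0]; exact hn1
  obtain ⟨X, hX⟩ : ∃ X : Idx K nt δ N2 → ℝ, ∀ j, X j = (Ideal.absNorm j.q : ℝ) ^ (1 / n) :=
    ⟨_, fun _ => rfl⟩
  have hX1 : ∀ j, 1 ≤ X j := fun j => by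
    rw [hX]; exact Real.one_le_rpow (by linarith [hNj j]) hni.le
  have hXpow : ∀ j (e : ℝ), X j ^ (n * e) = (Ideal.absNorm j.q : ℝ) ^ e := fun j e => by
    rw [hX, ← Real.rpow_mul (hN0 j).le]; congr 1; field_simp
  have hXd : ∀ j, X j ^ n = (Ideal.absNorm j.q : ℝ) := fun j => by
    rw [hX, ← Real.rpow_mul (hN0 j).le, one_div_mul_cancel hn0.ne', Real.rpow_one]
  have hXN : ∀ j, X j ≤ (Ideal.absNorm j.q : ℝ) := fun j => by
    rw [hX]
    calc (Ideal.absNorm j.q : ℝ) ^ (1 / n) ≤ (Ideal.absNorm j.q : ℝ) ^ (1 : ℝ) :=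
          Real.rpow_le_rpow_of_exponent_le (by linarith [hNj j]) hni1
      _ = _ := Real.rpow_one _
  have hlogX : ∀ j, Real.log (X j) = 1 / n * Real.log (Ideal.absNorm j.q) := fun j => by
    rw [hX, Real.log_rpow (hN0 j)]
  have hGd : ∀ j : Idx K nt δ N2, ∀ ψ ∈ (hfin j).toFinset, W388.LV.GoodG n A
      ((Ideal.absNorm (cdN nt j.q ψ) : ℝ) ^ (1 / n)) (LL K ψ)
      (fun m => cc ψ m * (ArithmeticFunction.vonMangoldt m : ℂ)) := by
    intro j ψ hψ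
    obtain ⟨h1, h3, h4⟩ := cdN_spec ((hmem j ψ).mp hψ).1
    obtain ⟨F, hF, hFL, hG⟩ := hgood _ ψ h3 h4
    rw [LL_eq K hF hFL]
    exact hG
  have hab : ∀ j : Idx K nt δ N2, ∀ ψ ∈ (hfin j).toFinset, ∀ m : ℕ,
      ‖cc ψ m * (ArithmeticFunction.vonMangoldt m : ℂ)‖ ≤
        n * ArithmeticFunction.vonMangoldt m := by
    intro j ψ hψ m
    obtain ⟨h1, h3, h4⟩ := cdN_spec ((hmem j ψ).mp hψ).1
    have h8 := Pool.Agent.Y772.DK.norm_cc_le ψ (FamN_norm_le ((hmem j ψ).mp hψ).1) m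
    rw [norm_mul, Complex.norm_real,
      Real.norm_of_nonneg ArithmeticFunction.vonMangoldt_nonneg]
    rw [← hn] at h8
    exact mul_le_mul_of_nonneg_right h8 ArithmeticFunction.vonMangoldt_nonneg
  -- the mean square
  have hmsq := msqD n hn1 (cK K) (Pool.Agent.Y772.HC.t_mer K) (1 + s) cw (n * (1 - θ'))
    (by linarith) hcw (mul_pos hn0 (by rw [hθ']; linarith)) (Idx K nt δ N2)
    (fun _ => Ideal (𝓞 K) →*₀ ℂ) (fun j => (hfin j).toFinset) X (fun j => Ideal.absNorm j.q)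
    (fun _ ψ m => cc ψ m * (ArithmeticFunction.vonMangoldt m : ℂ)) (by
      intro j
      refine ⟨hX1 j, hne j, absNorm_pos' j.bot, ?_⟩
      rw [hXd]) hab (by
      intro ε' hε'
      obtain ⟨Ce, hCe, hls⟩ := hthin (ε' / 2) (by positivity)
      refine ⟨2 * Ce + (1 + 1 / (s / 2)) * C2, 1, by positivity, fun j hj M hM u w hu hw b hb => ?_⟩
      obtain ⟨n1, n2, n3⟩ := hnum j.q j.bot j.top j.H j.F j.mem j.big j.large
      rw [hncard j] at n3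
      have hM' : (M : ℝ) ≤ (Ideal.absNorm j.q : ℝ) ^ (1 - θ') := by
        rw [hXpow] at hM; exact hM
      have h3 := hls j.q j.bot j.top j.H (by rw [hθ]; exact n1) j.F j.mem (hfin j).toFinset
        (fun ψ hψ => (hmem j ψ).mp hψ) M hM' u w hu hw b hb (s / 2) (by positivity)
      refine h3.trans ?_
      obtain ⟨SB, hSB⟩ : ∃ SB : ℝ, SB = ∑ m ∈ Finset.Icc 1 M,
          ‖b m‖ ^ 2 * (ArithmeticFunction.vonMangoldt m * ‖cK K m‖) ^ 2 := ⟨_, rfl⟩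
      obtain ⟨F, hF⟩ : ∃ F : ℝ, F = (1 + Real.log (Ideal.absNorm j.q)) ^ 2 *
          Real.exp (-(cw * u)) := ⟨_, rfl⟩
      have hSB0 : 0 ≤ SB := by
        rw [hSB]; exact Finset.sum_nonneg fun _ _ => by positivity
      have hF0 : 0 ≤ F := by rw [hF]; positivity
      have e1 : ε' / 2 * (1 + Real.log (Ideal.absNorm j.q)) ^ 2 * Real.exp (-(cw * u)) =
          ε' / 2 * F := by rw [hF]; ring
      have e2 : ε' * (1 + Real.log (Ideal.absNorm j.q)) ^ 2 * Real.exp (-(cw * u)) =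
          ε' * F := by rw [hF]; ring
      rw [← hSB, e1, e2]
      obtain ⟨k, hk⟩ : ∃ k : ℝ, k = ((hfin j).toFinset.card : ℝ) := ⟨_, rfl⟩
      rw [← hk] at n3 ⊢
      have hk0 : 0 ≤ k := by rw [hk]; exact Nat.cast_nonneg _
      have hZ : 0 ≤ SB + w ^ 2 * (Ce + ε' / 2 * F) := by positivity
      have h4 : (1 + s / 2) * (Nat.card j.H * (SB + w ^ 2 * (Ce + ε' / 2 * F))) ≤
          (1 + s) * k * (SB + w ^ 2 * (Ce + ε' / 2 * F)) := by
        calc _ = ((1 + s / 2) * Nat.card j.H) * (SB + w ^ 2 * (Ce + ε' / 2 * F)) := by ring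
          _ ≤ _ := mul_le_mul_of_nonneg_right n3 hZ
      have h5 : (1 + s) * k * (SB + w ^ 2 * (Ce + ε' / 2 * F)) ≤
          k * ((1 + s) * SB + w ^ 2 * (2 * (Ce + ε' / 2 * F))) := by
        have h6 : (1 + s) * (w ^ 2 * (Ce + ε' / 2 * F)) ≤ 2 * (w ^ 2 * (Ce + ε' / 2 * F)) :=
          mul_le_mul_of_nonneg_right (by linarith) (by positivity)
        have h7 := mul_le_mul_of_nonneg_left h6 hk0
        calc _ = k * ((1 + s) * SB) + k * ((1 + s) * (w ^ 2 * (Ce + ε' / 2 * F))) := by ring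
          _ ≤ k * ((1 + s) * SB) + k * (2 * (w ^ 2 * (Ce + ε' / 2 * F))) := by linarith
          _ = _ := by ring
      calc _ ≤ k * ((1 + s) * SB + w ^ 2 * (2 * (Ce + ε' / 2 * F))) +
            (1 + 1 / (s / 2)) * (k * (C2 * w ^ 2)) := add_le_add (h4.trans h5) le_rfl
        _ = _ := by ring) γ β h0 hπ hβ (by
          rw [hβd, hb0, hθ']
          nlinarith)
  obtain ⟨I1, hI1⟩ : ∃ I1 : ℝ, I1 = ∫ α in (0 : ℝ)..1, α * Rw γ α := ⟨_, rfl⟩
  rw [← hI1] at hI0 hcy hconst hmsq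
  obtain ⟨η, X0, hη, hX0, hres⟩ := coreD n A hn1 hA (Idx K nt δ N2)
    (fun _ => Ideal (𝓞 K) →*₀ ℂ) (fun j => (hfin j).toFinset) X
    (fun j ψ => (Ideal.absNorm (cdN nt j.q ψ) : ℝ) ^ (1 / n)) (fun _ ψ => LL K ψ)
    (fun _ ψ m => cc ψ m * (ArithmeticFunction.vonMangoldt m : ℂ)) hne (by
      intro j ψ hψ
      obtain ⟨h1, h3, h4⟩ := cdN_spec ((hmem j ψ).mp hψ).1
      have h5 := one_le_absNorm h4.ne_bot
      refine ⟨Real.one_le_rpow h5 hni.le, ?_, hGd j ψ hψ, hab j ψ hψ⟩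
      rw [hX]
      refine Real.rpow_le_rpow (by linarith) ?_ hni.le
      have h6 : Ideal.absNorm (cdN nt j.q ψ) ≤ Ideal.absNorm j.q :=
        Nat.le_of_dvd (absNorm_pos' j.bot)
          (Ideal.absNorm_dvd_absNorm_of_le (Ideal.dvd_iff_le.mp h1))
      exact_mod_cast h6) (δ - s) (by linarith) (by
      intro ρ hρ
      obtain ⟨N0, hN0', hcd⟩ := numT' K nt δ (δ - s) hδ0 (by linarith) ρ hρ
      refine ⟨N0, fun j hj => ?_⟩
      have h3 := hcd j.q j.bot j.top j.H j.F _ (hmem j) (hj.trans (hXN j))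
        (hnum j.q j.bot j.top j.H j.F j.mem j.big j.large).2.1
      refine le_trans ?_ h3
      have h4 : ((hfin j).toFinset.filter (fun ψ =>
          Real.log ((Ideal.absNorm (cdN nt j.q ψ) : ℝ) ^ (1 / n)) < (δ - s) * Real.log (X j))) ⊆
          (hfin j).toFinset.filter (fun ψ =>
            (Ideal.absNorm (cdN nt j.q ψ) : ℝ) ≤ (Ideal.absNorm j.q : ℝ) ^ (δ - s)) := by
        intro ψ hψ
        obtain ⟨h5, h6⟩ := Finset.mem_filter.mp hψ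
        refine Finset.mem_filter.mpr ⟨h5, ?_⟩
        have h7 := one_le_absNorm (cdN_spec ((hmem j ψ).mp h5).1).2.2.ne_bot
        have h8 : (0 : ℝ) < (Ideal.absNorm (cdN nt j.q ψ) : ℝ) := by linarith
        rw [Real.log_rpow h8, hlogX] at h6
        have h9 : Real.log (Ideal.absNorm (cdN nt j.q ψ)) ≤
            Real.log ((Ideal.absNorm j.q : ℝ) ^ (δ - s)) := by
          rw [Real.log_rpow (hN0 j)]
          have h10 : 1 / n * Real.log (Ideal.absNorm (cdN nt j.q ψ)) ≤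
              1 / n * ((δ - s) * Real.log (Ideal.absNorm j.q)) := by
            refine h6.le.trans (le_of_eq ?_)
            ring
          exact le_of_mul_le_mul_left h10 hni
        exact (Real.log_le_log_iff h8 (Real.rpow_pos_of_pos (hN0 j) _)).mp h9
      exact_mod_cast Finset.card_le_card h4) γ β (2 * β * I1 * (1 + s)) h0 hπ hβ (by positivity)
      hR0 (by
        calc 2 * β * I1 * (1 + s) * β = (n / 2) ^ 2 * (2 * b0 * I1 * (1 + s) * b0) := by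
              rw [hβd]; ring
          _ ≤ (n / 2) ^ 2 * (4 * Rw γ 0 * (δ - s)) :=
              mul_le_mul_of_nonneg_left hcy (by positivity)
          _ = _ := by ring) hmsq (ε / 2) (by positivity)
  refine ⟨η / n, max N2 (X0 ^ n), by positivity, fun 𝔮 hbot htop H F₁ hF₁ hN hH => ?_⟩
  have hN2' : N2 ≤ (Ideal.absNorm 𝔮 : ℝ) := (le_max_left _ _).trans hN
  have hN3 : X0 ^ n ≤ (Ideal.absNorm 𝔮 : ℝ) := (le_max_right _ _).trans hN
  obtain ⟨j, hj⟩ : ∃ j : Idx K nt δ N2, j = ⟨𝔮, hbot, htop, H, F₁, hF₁, hN2', hH⟩ := ⟨_, rfl⟩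
  have hjq : j.q = 𝔮 := by rw [hj]
  have hNp : (0 : ℝ) < Ideal.absNorm 𝔮 := by have := hN0 j; rwa [hjq] at this
  have hlog1 : 1 ≤ Real.log (Ideal.absNorm 𝔮) := by
    rw [Real.le_log_iff_exp_le hNp]
    have := hNj j
    rw [hjq] at this
    exact (Real.exp_one_lt_d9.le.trans (by norm_num)).trans this
  refine ⟨(hfin j).toFinset, ?_, hne j, hlog1, fun T hT1 hT2 => ?_⟩
  · intro ψ
    rw [hmem j ψ, hj]
  have hXj : X j = (Ideal.absNorm 𝔮 : ℝ) ^ (1 / n) := by rw [hX j, hjq]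
  have hX0j : X0 ≤ X j := by
    rw [hXj]
    calc X0 = (X0 ^ n) ^ (1 / n) := by
          rw [← Real.rpow_mul (by linarith), mul_one_div_cancel hn0.ne', Real.rpow_one]
      _ ≤ _ := Real.rpow_le_rpow (by positivity) hN3 hni.le
  have hT0 : 1 ≤ T := by nlinarith
  have hL2 : (Real.log (X j)) ^ 2 ≤ T := by
    refine le_trans ?_ hT1
    rw [hXj, Real.log_rpow hNp]
    refine pow_le_pow_left₀ (by positivity) ?_ 2
    exact mul_le_of_le_one_left (by linarith) hni1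
  have hTη : T ≤ (X j) ^ η := by
    refine hT2.trans (le_of_eq ?_)
    rw [hXj, ← Real.rpow_mul hNp.le]
    congr 1; field_simp
  obtain ⟨r1, r2⟩ := hres j T hX0j hL2 hTη
  have hSN : 0 ≤ ∑ ψ ∈ (hfin j).toFinset, (NN (LL K ψ) T (2 * T) : ℝ) :=
    Finset.sum_nonneg fun _ _ => Nat.cast_nonneg _
  have hκ : n * Rw γ 0 / β + 2 * β * I1 * (1 + s) / n + ε / 2 ≤ kap δ + ε := by
    have e1 : n * Rw γ 0 / β = 2 * Rw γ 0 / b0 := by rw [hβd]; field_simp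
    have e2 : 2 * β * I1 * (1 + s) / n = 2 * b0 * I1 * (1 + s) / 2 := by rw [hβd]; field_simp
    rw [e1, e2]
    exact hconst
  have r3 := mul_le_mul_of_nonneg_right hκ hSN
  refine ⟨hT0, fun ψ hψ => ?_, r1.trans r3, r2.trans r3⟩
  have h5 := one_le_absNorm (cdN_spec ((hmem j ψ).mp hψ).1).2.2.ne_bot
  exact W388.LV.zset_finite_D hA (Real.one_le_rpow h5 hni.le) (hGd j ψ hψ) T (2 * T) hT0

end

end Pool.Agent.H440.TF
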