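import Pool.Agent.H440.TF.Low

/-!
# The L-functions of the (imprimitive) Hecke characters modulo `𝔮` of any type (helper440)
-/

set_option autoImplicit false
set_option linter.unusedSectionVars false

open NumberField Filter Topology

namespace Pool.Agent.H440.TF

open Pool.Agent.Y773 (TPos LI cc)
open Pool.Agent.Y767 (Mq Mq_cop Mq_ne_bot Cls cls cls_pi eq_of_LI)
open Pool.Agent.Y773.IQ (absNorm_pos' tM ofM' ofM'_pos ofM'_supp cop_one ne_zero_of_cop LL LL_eq)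
open Pool.Agent.N784.AD (pi1 T1)
open Pool.Agent.N784.HC
open Pool.Agent.N784.CZ (ent_of dn0_bound)
open Pool.Agent.N833.CZ (norm_ofM'_le)
open Pool.Agent.Y773.AB (res res_cop res_not norm_res_le LI_res Ef Ef_ne Ef_diff
  m0 m0_top m0_bot count_congr order_mul_ne Rg)
open Pool.Agent.Helper503_HW (UnS UnS_norm exists_un exists_baseK)
open Pool.Agent.H82R3.EK (cnt NN_eq strip)
open H370 (zset NN Ns Nd)

section

variable {K : Type} [Field K] [NumberField K] {n : (K →+* ℂ) → ℕ}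

/-- extension by zero and restriction -/
lemma ofM_res {𝔮 : Ideal (𝓞 K)} (htop : 𝔮 ≠ ⊤) {F : Mq 𝔮 →* ℂˣ} {ψ : Ideal (𝓞 K) →*₀ ℂ}
    (h : ∀ x : Mq 𝔮, ψ (x : Ideal (𝓞 K)) = ((F x : ℂˣ) : ℂ)) : ofM' htop F = res 𝔮 htop ψ := by
  ext 𝔞
  by_cases h1 : IsCoprime 𝔞 𝔮
  · rw [ofM'_pos htop F h1, res_cop htop ψ h1, h ⟨𝔞, h1⟩]
  · rw [res_not htop ψ h1]
    by_contra h2
    exact h1 ((ofM'_supp htop F 𝔞).mp h2)

/-- the continuation for all types -/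
theorem exists_Hx (hn : CTyp n) {𝔮 : Ideal (𝓞 K)} (hbot : 𝔮 ≠ ⊥) (htop : 𝔮 ≠ ⊤)
    {F : Mq 𝔮 →* ℂˣ} (hF : F ∈ Dn n htop) :
    ∃ H : ℂ → ℂ, Differentiable ℂ H ∧ (∀ s : ℂ, 1 < s.re → H s = (s - 1) * LI (ofM' htop F) s) ∧
      (n ≠ 0 → H 1 = 0) := by
  by_cases hn0 : n = 0
  · subst hn0
    have hSig := Pool.Agent.Y772.G.t_sig
    have hray : ∀ x : 𝓞 K, x ≠ 0 → x - 1 ∈ 𝔮 → TPos K x → ofM' htop F (Ideal.span {x}) = 1 := by
      intro x hx0 hx hp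
      rw [ofM'_pos htop F (cop_one hx)]
      have h2 : ((F (pi1 htop ⟨x, hx, hp⟩) : ℂˣ) : ℂ) =
          ((phT 0 htop ⟨x, hx, hp⟩ : ℂˣ) : ℂ) := by rw [hF ⟨x, hx, hp⟩]
      rw [phT_coe, ph_zero_type] at h2
      exact h2
    obtain ⟨e, he, hcx, hsig⟩ := hSig K 𝔮 _ hbot hray
    have hmod : Pool.Agent.Y773.G.IsModChar 𝔮 e (ofM' htop F) :=
      ⟨hbot, htop, he, hcx, fun 𝔞 => ofM'_supp htop F 𝔞, hsig⟩
    obtain ⟨H, hH, hHL, -⟩ := Pool.Agent.Y773.G.LI_mero hmod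
    exact ⟨H, hH, hHL, fun h => absurd rfl h⟩
  · obtain ⟨L, hL, hLs⟩ := ent_of hn hn0 hbot htop hF
    refine ⟨fun s => (s - 1) * L s, (differentiable_id.sub_const 1).mul hL, fun s hs => ?_,
      fun _ => ?_⟩
    · simp only
      rw [hLs s hs]
    · simp

/-- the zeros of the L-functions of the characters induced by primitive ones -/
theorem H_ramT (hn : CTyp n) {𝔮 : Ideal (𝓞 K)} (hbot : 𝔮 ≠ ⊥) (htop : 𝔮 ≠ ⊤)
    {F : Mq 𝔮 →* ℂˣ} {ψ : Ideal (𝓞 K) →*₀ ℂ} (hψF : ψ ∈ FamN n 𝔮) (hψ : tM 𝔮 ψ = F) {H : ℂ → ℂ}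
    (hH : Differentiable ℂ H) (hHL : ∀ s, 1 < s.re → H s = (s - 1) * LI (ofM' htop F) s)
    {T1 T2 : ℝ} (hT : 0 ≤ T1) :
    zset H T1 T2 = zset (LL K ψ) T1 T2 ∧ NN H T1 T2 = NN (LL K ψ) T1 T2 ∧
      Ns H T1 T2 = Ns (LL K ψ) T1 T2 ∧ Nd H T1 T2 = Nd (LL K ψ) T1 T2 := by
  have hψx : ∀ x : Mq 𝔮, ψ (x : Ideal (𝓞 K)) = ((F x : ℂˣ) : ℂ) := by
    intro x
    rw [← hψ, tM_coe htop hψF]
  have hψ1 : ∀ 𝔞, ‖ψ 𝔞‖ ≤ 1 := FamN_norm_le hψF
  obtain ⟨A, hA, hgood⟩ := goodA K hn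
  obtain ⟨𝔣, h1, h2, h3⟩ := hψF
  obtain ⟨G, hG, hGL, -⟩ := hgood 𝔣 ψ h2 h3
  rw [LL_eq K hG hGL]
  have hE := Ef_diff hbot ψ
  have heq : H = fun s => G s * ((s - 1) * Ef 𝔮 ψ s) := by
    refine eq_of_LI hH (hG.mul ((differentiable_id.sub_const 1).mul hE)) fun s hs => ?_
    rw [hHL s hs, ofM_res htop hψx, LI_res hbot htop hψ1 hs, ← hGL s hs]
    ring
  refine count_congr (fun s _ => hH.analyticAt s) (fun s _ => hG.analyticAt s) fun s hs => ?_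
  refine order_mul_ne (hG.analyticAt s)
    (((differentiable_id.sub_const 1).mul hE).analyticAt s) ?_ (by rw [heq]; exact EventuallyEq.rfl)
  obtain ⟨s1, s2, s3, s4⟩ := hs
  refine mul_ne_zero ?_ (Ef_ne hbot hψ1 s1)
  intro h0
  have h5 := congrArg Complex.im h0
  simp at h5
  linarith

/-- few zeros of the L-functions of the characters of conductor one -/
theorem crudeT (hn : CTyp n) : ∃ B : ℝ, 0 < B ∧ ∀ (𝔮 : Ideal (𝓞 K)) (_ : 𝔮 ≠ ⊥) (htop : 𝔮 ≠ ⊤)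
    (F : Mq 𝔮 →* ℂˣ), F ∈ Dn0 n 𝔮 → ∀ H : ℂ → ℂ, Differentiable ℂ H →
      (∀ s : ℂ, 1 < s.re → H s = (s - 1) * LI (ofM' htop F) s) →
      ∀ T : ℝ, 5 ≤ T → (zset H T (2 * T)).Finite ∧ (NN H T (2 * T) : ℝ) ≤ B * T ^ 2 := by
  classical
  by_cases hn0 : n = 0
  · subst hn0
    obtain ⟨Hc, B, hB, hbase⟩ := exists_baseK K
    refine ⟨B, hB, fun 𝔮 hbot htop F hF H hH hHL T hT => ?_⟩
    obtain ⟨ψ, hψU, hψ⟩ := exists_un hbot htop (F := F) (by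
      intro x hx hx0
      ext
      rw [hF x hx hx0, ph_zero_type, Units.val_one])
    obtain ⟨hHc, hHcL, hT'⟩ := hbase ψ hψU
    have hψ1 := UnS_norm hψU
    have hE := Ef_diff hbot ψ
    have hE0 := Ef_diff (m0_bot (K := K)) ψ
    have heq : (fun s => H s * Ef (m0 K) ψ s) = fun s => Hc ψ s * Ef 𝔮 ψ s := by
      refine eq_of_LI (hH.mul hE0) (hHc.mul hE) fun s hs => ?_
      rw [hHL s hs, hHcL s hs, ofM_res htop hψ, LI_res hbot htop hψ1 hs,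
        LI_res m0_bot m0_top hψ1 hs]
      ring
    obtain ⟨c1, c2, -, -⟩ := count_congr (F := H) (G := Hc ψ) (T1 := T) (T2 := 2 * T)
      (fun s _ => hH.analyticAt s) (fun s _ => hHc.analyticAt s) (fun s hs => by
      rw [← order_mul_ne (hH.analyticAt s) (hE0.analyticAt s) (Ef_ne m0_bot hψ1 hs.1)
        EventuallyEq.rfl,
        ← order_mul_ne (hHc.analyticAt s) (hE.analyticAt s) (Ef_ne hbot hψ1 hs.1)
        EventuallyEq.rfl, heq])
    rw [c1, c2]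
    exact hT' T hT
  · obtain ⟨B, hB, hb⟩ := dn0_bound (K := K) Pool.Agent.N603.CZ.t_gro Pool.Agent.N768.CZ.t_cru
      hn hn0
    refine ⟨B + 1, by linarith, fun 𝔮 hbot htop F hF H hH hHL T hT => ?_⟩
    obtain ⟨L, hL, hLs⟩ := ent_of hn hn0 hbot htop (Dn0_sub htop hF)
    have heq : H = fun s => L s * (s - 1) := by
      refine eq_of_LI hH (hL.mul (differentiable_id.sub_const 1)) fun s hs => ?_
      rw [hHL s hs, hLs s hs]
      ring
    obtain ⟨c1, c2, -, -⟩ := count_congr (F := H) (G := L) (T1 := T) (T2 := 2 * T)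
      (fun s _ => hH.analyticAt s) (fun s _ => hL.analyticAt s) (fun s hs => by
      refine order_mul_ne (hL.analyticAt s) ((differentiable_id.sub_const 1).analyticAt s) ?_
        (by rw [heq]; exact EventuallyEq.rfl)
      intro h0
      have h5 := congrArg Complex.im h0
      obtain ⟨s1, s2, s3, s4⟩ := hs
      simp at h5
      linarith)
    have hT1 : 1 ≤ T := by linarith
    obtain ⟨b1, -⟩ := hb 𝔮 hbot htop F hF L hL hLs T hT1
    rw [c1, c2, NN_eq]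
    have hne : L 2 ≠ 0 := by
      rw [hLs 2 (by norm_num)]
      exact Pool.Agent.N784.CZ.LI_ne (norm_ofM'_le hbot htop (Dn0_sub htop hF)) (by norm_num)
    refine ⟨?_, b1.trans (mul_le_mul_of_nonneg_right (by linarith) (sq_nonneg _))⟩
    have h7 := Pool.Agent.N784.CZ.zeros_bdd (W := strip T (2 * T)) hL hne
      Pool.Agent.N784.CZ.strip_bdd
    refine h7.subset ?_
    intro s hs
    rw [Pool.Agent.Y773.AB.mem_zset] at hs
    exact ⟨hs.1, hs.2⟩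

end

end Pool.Agent.H440.TF
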