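import Pool.Agent.H440.TF.Glue
import Pool.Agent.H440.CM.Core
import Pool.Graph.R_pool_sql_team_seeded_620a6dc7.Helper503_HW.ExK
import Pool.Graph.R_pool_sql_team_seeded_63374d34.N784.HC.Exi

/-!
# The product of all the twists of Hecke characters of several types, over an abelian extension
(helper440)
-/

set_option autoImplicit false
set_option linter.unusedSectionVars false

open NumberField IsDedekindDomain Complex Filter Topology Set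

namespace Pool.Agent.H440.TF

open Pool.Agent.Y773 (TPos LI)
open Pool.Agent.Y767 (Mq Mq_cop Cls cls eq_of_LI)
open Pool.Agent.Y773.IQ (ofM' tM LL LL_eq absNorm_pos')
open Pool.Agent.N784.HC
open Pool.Agent.N784.AD (pi1 T1 pi1_coe)
open Pool.Agent.N784.CZ (ent_of nv_Dn)
open Pool.Agent.N833.CZ (norm_ofM'_le bM)
open Pool.Agent.Y773.AB (kap NL Rg NN_prod Ns_le_NL FrobAt split_prime cgr fin_dual)
open Pool.Agent.Helper503_HW (IsArtK artM artM_surj cls_large cls_card_le_of)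
open H370 (zset mult NN Nd Ns)

/-- the continuation of the L-function of one character -/
theorem exists_HL {K : Type} [Field K] [NumberField K] {n : (K →+* ℂ) → ℕ} (hn : CTyp n)
    {𝔮 : Ideal (𝓞 K)} (hbot : 𝔮 ≠ ⊥) (htop : 𝔮 ≠ ⊤) {F : Mq 𝔮 →* ℂˣ} (hF : F ∈ Dn n htop) :
    ∃ H L : ℂ → ℂ, Differentiable ℂ H ∧
      (∀ s : ℂ, 1 < s.re → H s = (s - 1) * LI (ofM' htop F) s) ∧
      (∀ s : ℂ, 1 < s.re → L s = LI (ofM' htop F) s) ∧
      (∀ s : ℂ, s ≠ 1 → AnalyticAt ℂ L s) ∧ MeromorphicAt L 1 ∧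
      (∀ s : ℂ, s ≠ 1 → L s = H s * (s - 1)⁻¹) ∧
      (n ≠ 0 → Differentiable ℂ L ∧ ∀ s : ℂ, 1 ≤ s.re → L s ≠ 0) := by
  have hs1 : ∀ s : ℂ, 1 < s.re → s ≠ 1 := by
    rintro s hs rfl
    simp at hs
  by_cases hn0 : n = 0
  · obtain ⟨H, hH, hHL, -⟩ := exists_Hx hn hbot htop hF
    refine ⟨H, fun s => H s * (s - 1)⁻¹, hH, hHL, ?_, ?_, ?_, fun s _ => rfl,
      fun h => absurd hn0 h⟩
    · intro s hs
      simp only
      rw [hHL s hs]
      have : s - 1 ≠ 0 := sub_ne_zero.mpr (hs1 s hs)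
      field_simp
    · intro s hs
      exact (hH.analyticAt s).mul (((differentiable_id.sub_const 1).analyticAt s).inv
        (sub_ne_zero.mpr hs))
    · exact (hH.analyticAt 1).meromorphicAt.mul
        ((differentiable_id.sub_const 1).analyticAt 1).meromorphicAt.inv
  · obtain ⟨L, hL, hLs⟩ := ent_of hn hn0 hbot htop hF
    refine ⟨fun s => (s - 1) * L s, L, (differentiable_id.sub_const 1).mul hL, fun s hs => ?_,
      hLs, fun s _ => hL.analyticAt s, (hL.analyticAt 1).meromorphicAt, fun s hs => ?_,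
      fun _ => ⟨hL, fun s hs => nv_Dn hn hn0 hbot htop hF hL hLs hs⟩⟩
    · simp only
      rw [hLs s hs]
    · have : s - 1 ≠ 0 := sub_ne_zero.mpr hs
      field_simp

/-- **the product over all the twists of the characters of several types** -/
theorem core (K : Type) [Field K] [NumberField K] {N : ℕ} (n : Fin N → (K →+* ℂ) → ℕ)
    (hn : ∀ j, CTyp (n j)) (δ : ℝ) (hδ : 2 / 3 < δ) (hδ1 : δ < 1) (ε : ℝ) (hε : 0 < ε) :
    ∃ η X₀ : ℝ, 0 < η ∧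
    ∀ (𝔮 : Ideal (𝓞 K)), 𝔮 ≠ ⊥ → ∀ htop : 𝔮 ≠ ⊤, X₀ ≤ (Ideal.absNorm 𝔮 : ℝ) →
    ∀ (E : Type) [Field E] [NumberField E] [Algebra K E] [IsAbelianGalois K E]
      (art : Ideal (𝓞 K) → (E ≃ₐ[K] E)), IsArtK 𝔮 art →
      (Ideal.absNorm 𝔮 : ℝ) ^ δ ≤ Module.finrank K E →
    ∀ F₁ : Fin N → (Mq 𝔮 →* ℂˣ), (∀ j, F₁ j ∈ Dn (n j) htop) →
    ∃ G : ℂ → ℂ, (∀ s : ℂ, s ≠ 1 → AnalyticAt ℂ G s) ∧ MeromorphicAt G 1 ∧
      (∀ s : ℂ, 1 < s.re → HasProd (fun w : HeightOneSpectrum (𝓞 E) =>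
        ∏ j, (1 - evA (F₁ j) art w * ((Ideal.absNorm w.asIdeal : ℕ) : ℂ) ^ (-s))⁻¹) (G s)) ∧
      ((∀ j, n j ≠ 0) → Differentiable ℂ G ∧ ∀ s : ℂ, 1 ≤ s.re → G s ≠ 0) ∧
      ∀ T : ℝ, (Real.log (Ideal.absNorm 𝔮)) ^ 2 ≤ T → T ≤ (Ideal.absNorm 𝔮 : ℝ) ^ η →
        0 ≤ T ∧ (zset G T (2 * T)).Finite ∧
        (δ - ε) * (N * (Module.finrank K E * (T / (2 * Real.pi) *
          Real.log (Ideal.absNorm 𝔮)))) ≤ (NN G T (2 * T) : ℝ) ∧
        (2 - kap δ - ε) * (NN G T (2 * T) : ℝ) ≤ (NL G T (2 * T) : ℝ) := by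
  classical
  have H0 : ∀ j, ∃ η X₀ : ℝ, 0 < η ∧ 1 < X₀ ∧ _ := fun j => mainZT K (hn j) δ hδ hδ1 ε hε
  choose ηj Xj hηj hXj1 H using H0
  obtain ⟨η, hη0, hη⟩ := Pool.Agent.H440.CM.exists_lower ηj hηj
  obtain ⟨X₀, hX1, hX₀⟩ := Pool.Agent.H440.CM.exists_upper Xj
  refine ⟨η, X₀, hη0, ?_⟩
  intro 𝔮 hbot htop hX E _ _ _ _ art hart hE F₁ hF₁
  let _ : CommGroup (E ≃ₐ[K] E) := cgr K E
  have hcard : Nat.card (E ≃ₐ[K] E) = Module.finrank K E := IsGalois.card_aut_eq_finrank K E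
  have hfd : Finite ((E ≃ₐ[K] E) →* ℂˣ) := fin_dual
  let hft : Fintype ((E ≃ₐ[K] E) →* ℂˣ) := Fintype.ofFinite _
  obtain ⟨A, hA⟩ : ∃ A : Mq 𝔮 →* (E ≃ₐ[K] E), A = artM hart := ⟨_, rfl⟩
  have hAs : Function.Surjective A := by
    rw [hA]
    exact artM_surj hbot hart
  have hAe : ∀ x : Mq 𝔮, A x = art (x : Ideal (𝓞 K)) := by
    intro x
    rw [hA]
    rfl
  have hA1 : ∀ x : T1 htop, A (pi1 htop x) = 1 := by
    intro x
    rw [hAe, pi1_coe]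
    exact hart.ray x (Pool.Agent.N784.AD.T1_one x) (Pool.Agent.N784.AD.T1_tp x)
  have hmem : ∀ (j : Fin N) (χ : (E ≃ₐ[K] E) →* ℂˣ), F₁ j * χ.comp A ∈ Dn (n j) htop :=
    fun j χ => twA_mem hA1 (hF₁ j) χ
  choose Hf Lf h1 h2 h3 h4 h5 h6 h7 using fun (j : Fin N) (χ : (E ≃ₐ[K] E) →* ℂˣ) =>
    exists_HL (hn j) hbot htop (hmem j χ)
  obtain ⟨G, hG⟩ : ∃ G : ℂ → ℂ, G = fun s => ∏ j, ∏ χ, Lf j χ s := ⟨_, rfl⟩
  have hGan : ∀ s : ℂ, s ≠ 1 → AnalyticAt ℂ G s := by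
    intro s hs
    rw [hG]
    exact Finset.analyticAt_fun_prod _ fun j _ => Finset.analyticAt_fun_prod _ fun χ _ =>
      h4 j χ s hs
  refine ⟨G, hGan, ?_, ?_, ?_, ?_⟩
  · rw [hG]
    exact MeromorphicAt.fun_prod fun j _ => MeromorphicAt.fun_prod fun χ _ => h5 j χ
  · intro s hs
    have e1 : G s = ∏ j, ∏ χ : (E ≃ₐ[K] E) →* ℂˣ, LI (ofM' htop (F₁ j * χ.comp A)) s := by
      rw [hG]
      exact Finset.prod_congr rfl fun j _ => Finset.prod_congr rfl fun χ _ => h3 j χ s hs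
    rw [e1]
    refine hasProd_prod fun j _ => ?_
    exact glueA hbot htop art A (MulEquiv.refl _) hAe hA1
      (fun 𝔭 hc h𝔭 => hart.frob 𝔭 h𝔭 hc) (hF₁ j) hs
  · intro h0
    constructor
    · rw [hG]
      exact Differentiable.fun_finsetProd fun j _ => Differentiable.fun_finsetProd fun χ _ =>
        (h7 j χ (h0 j)).1
    · intro s hs
      rw [hG]
      simp only
      rw [Finset.prod_ne_zero_iff]
      intro j _
      rw [Finset.prod_ne_zero_iff]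
      exact fun χ _ => (h7 j χ (h0 j)).2 s hs
  · intro T hT1 hT2
    have hN1 : (1 : ℝ) ≤ (Ideal.absNorm 𝔮 : ℝ) := hX1.trans hX
    have hT0 : 0 ≤ T := le_trans (sq_nonneg _) hT1
    have key : ∀ j, _ := fun j => H j 𝔮 hbot htop (E ≃ₐ[K] E) A hA1 hAs ((hX₀ j).trans hX)
      (by rw [hcard]; exact hE) (F₁ j) (hF₁ j) (Hf j) (h1 j) (h2 j) T hT1
      (hT2.trans (Real.rpow_le_rpow_of_exponent_le hN1 (hη j)))
    have hnt : ∀ i : Fin N × ((E ≃ₐ[K] E) →* ℂˣ), ∀ s ∈ Rg T (2 * T),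
        analyticOrderAt (Hf i.1 i.2) s ≠ ⊤ := by
      intro i s _
      have h8 : (2 : ℂ) - 1 ≠ 0 := by norm_num
      refine H370.Loc.order_ne_top (K := Set.univ) isPreconnected_univ
        (fun z _ => (h1 i.1 i.2).analyticAt z) (c := 2) (Set.mem_univ _) ?_ (Set.mem_univ _)
      rw [h2 i.1 i.2 2 (by norm_num)]
      exact mul_ne_zero h8 (Pool.Agent.N784.CZ.LI_ne
        (norm_ofM'_le hbot htop (hmem i.1 i.2)) (by norm_num))
    have hu : ∀ s ∈ Rg T (2 * T), AnalyticAt ℂ (fun z : ℂ => (z - 1)⁻¹) s ∧ (s - 1)⁻¹ ≠ 0 := by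
      intro s hs
      have h1 := Pool.Agent.Y773.AB.upper_ne hT0 hs
      exact ⟨((differentiable_id.sub_const 1).analyticAt s).inv h1, inv_ne_zero h1⟩
    obtain ⟨p1, p2, p3⟩ := NN_prod (F := fun i : Fin N × ((E ≃ₐ[K] E) →* ℂˣ) => Hf i.1 i.2)
      (Z := G) (u := fun z => ∏ _i : Fin N × ((E ≃ₐ[K] E) →* ℂˣ), (z - 1)⁻¹) (T1 := T)
      (T2 := 2 * T) (fun i s _ => (h1 i.1 i.2).analyticAt s) hnt
      (fun i => (key i.1).2.1 i.2) (by
        intro s hs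
        exact ⟨Finset.analyticAt_fun_prod _ fun _ _ => (hu s hs).1,
          Finset.prod_ne_zero_iff.mpr fun _ _ => (hu s hs).2⟩) (by
        intro s hs
        have hs1 : s ≠ 1 := sub_ne_zero.mp (Pool.Agent.Y773.AB.upper_ne hT0 hs)
        filter_upwards [isOpen_ne.mem_nhds hs1] with z hz
        rw [hG]
        simp only
        rw [← Finset.prod_mul_distrib, Fintype.prod_prod_type]
        exact Finset.prod_congr rfl fun j _ => Finset.prod_congr rfl fun χ _ => h6 j χ z hz)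
    have q2 : (NN G T (2 * T) : ℝ) = ∑ j, ∑ χ, (NN (Hf j χ) T (2 * T) : ℝ) := by
      rw [p2, Fintype.sum_prod_type]
      push_cast
      rfl
    have q3 : (NL G T (2 * T) : ℝ) = ∑ j, ∑ χ, (NL (Hf j χ) T (2 * T) : ℝ) := by
      rw [p3, Fintype.sum_prod_type]
      push_cast
      rfl
    refine ⟨hT0, p1, ?_, ?_⟩
    · have r1 : ∑ j : Fin N, (δ - ε) * (Nat.card (E ≃ₐ[K] E) * (T / (2 * Real.pi) *
          Real.log (Ideal.absNorm 𝔮))) ≤ ∑ j, ∑ χ, (NN (Hf j χ) T (2 * T) : ℝ) :=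
        Finset.sum_le_sum fun j _ => (key j).2.2.1
      rw [Finset.sum_const, Finset.card_univ, Fintype.card_fin, nsmul_eq_mul, hcard, ← q2] at r1
      refine le_trans (le_of_eq ?_) r1
      ring
    · have r1 : ∑ j : Fin N, (2 - kap δ - ε) * ∑ χ, (NN (Hf j χ) T (2 * T) : ℝ) ≤
          ∑ j, ∑ χ, (NL (Hf j χ) T (2 * T) : ℝ) := by
        refine Finset.sum_le_sum fun j _ => (key j).2.2.2.1.trans ?_
        refine Finset.sum_le_sum fun χ _ => ?_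
        exact_mod_cast Ns_le_NL ((key j).2.1 χ)
      rw [← Finset.mul_sum, ← q2, ← q3] at r1
      exact r1

section frob

variable {K : Type} [Field K] [NumberField K] {l d i N : ℕ}
  {X : Set (MvPolynomial (Fin l) (𝓞 K))} {𝔮 : Ideal (𝓞 K)}
  {E : Type} [Field E] [NumberField E] [Algebra K E]

open Pool.Agent.H440.CM (Fro fro_lift)

/-- the eigenvalues at the places of `E` -/
theorem eigA [IsAbelianGalois K E] {art : Ideal (𝓞 K) → (E ≃ₐ[K] E)} (hart : IsArtK 𝔮 art)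
    {F : Fin N → (Mq 𝔮 →* ℂˣ)}
    (hFr : ∀ u : HeightOneSpectrum (𝓞 K), ∀ hc : IsCoprime u.asIdeal 𝔮, Fro (K := K) X d i u
      (Finset.univ.val.map (fun j => (Ideal.absNorm u.asIdeal : ℂ) ^ ((i : ℂ) / 2) *
        ((F j ⟨u.asIdeal, hc⟩ : ℂˣ) : ℂ)))) {w : HeightOneSpectrum (𝓞 E)}
    (hw : ¬ 𝔮.map (algebraMap (𝓞 K) (𝓞 E)) ≤ w.asIdeal) :
    Fro X d i w (Finset.univ.val.map (fun j => (Ideal.absNorm w.asIdeal : ℂ) ^ ((i : ℂ) / 2) *
      evA (F j) art w)) := by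
  set ι := algebraMap (𝓞 K) (𝓞 E) with hι
  have hc : IsCoprime (bM ι w).1 𝔮 := (Pool.Agent.H440.CM.cop_iff ι w).mpr hw
  have hpr : (bM ι w).1.IsPrime := Ideal.isPrime_of_prime (bM ι w).2
  set u : HeightOneSpectrum (𝓞 K) := ⟨(bM ι w).1, hpr, (bM ι w).2.ne_zero⟩ with hu
  have hN : Ideal.absNorm w.asIdeal = Ideal.absNorm u.asIdeal ^ orderOf (art (bM ι w).1) :=
    (split_prime (bM ι w).2 (hart.frob _ (bM ι w).2 hc) ((ab_iff w (bM ι w)).mp rfl)).1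
  set f := orderOf (art (bM ι w).1) with hf
  have h2 := fro_lift (K := E) (v := w) (u := u) (f := f) rfl hN (hFr u hc)
  have hpw : ((Ideal.absNorm u.asIdeal : ℂ) ^ ((i : ℂ) / 2)) ^ f =
      (Ideal.absNorm w.asIdeal : ℂ) ^ ((i : ℂ) / 2) := by
    have := Pool.Agent.Y773.natCast_pow_cpow (Ideal.absNorm u.asIdeal) f ((i : ℂ) / 2)
    rw [← this, ← hN]
  have h3 : (Finset.univ.val.map (fun j => (Ideal.absNorm u.asIdeal : ℂ) ^ ((i : ℂ) / 2) *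
      ((F j ⟨u.asIdeal, hc⟩ : ℂˣ) : ℂ))).map (fun z => z ^ f) =
      Finset.univ.val.map (fun j => (Ideal.absNorm w.asIdeal : ℂ) ^ ((i : ℂ) / 2) *
        evA (F j) art w) := by
    rw [Multiset.map_map]
    refine Multiset.map_congr rfl fun j _ => ?_
    rw [Function.comp_apply, mul_pow, hpw]
    unfold evA
    rw [dif_pos hc]
  rw [h3] at h2
  exact h2

end frob

/-- ray class fields of large degree, with a modulus divisible by a given ideal -/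
theorem exists_rayM (K : Type) [Field K] [NumberField K] (δ : ℝ) (hδ : δ < 1) {𝔪 : Ideal (𝓞 K)}
    (hm : 𝔪 ≠ ⊥) (X : ℝ) : ∃ 𝔮 : Ideal (𝓞 K), 𝔮 ≠ ⊥ ∧ 𝔮 ≠ ⊤ ∧ 𝔪 ∣ 𝔮 ∧
    X ≤ (Ideal.absNorm 𝔮 : ℝ) ∧
    ∀ (E : Type) [Field E] [NumberField E] [Algebra K E] [IsAbelianGalois K E]
        (art : Ideal (𝓞 K) → (E ≃ₐ[K] E)), IsArtK 𝔮 art →
      (∀ 𝔞 : Ideal (𝓞 K), IsCoprime 𝔞 𝔮 → art 𝔞 = 1 → ∃ x y : 𝓞 K, x - 1 ∈ 𝔮 ∧ y - 1 ∈ 𝔮 ∧
        TPos K x ∧ TPos K y ∧ Ideal.span {x} * 𝔞 = Ideal.span {y}) →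
      (Ideal.absNorm 𝔮 : ℝ) ^ δ ≤ Module.finrank K E := by
  obtain ⟨κ, N0, hκ, h⟩ := cls_large K δ hδ
  obtain ⟨𝔮, hbot, hdvd, hB, hku⟩ := exists_modM K hm κ (max (max X N0) 2) hκ
  have hX : X ≤ (Ideal.absNorm 𝔮 : ℝ) := ((le_max_left _ _).trans (le_max_left _ _)).trans hB
  have hN : N0 ≤ (Ideal.absNorm 𝔮 : ℝ) := ((le_max_right _ _).trans (le_max_left _ _)).trans hB
  have h2 : (2 : ℝ) ≤ (Ideal.absNorm 𝔮 : ℝ) := (le_max_right _ _).trans hB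
  have htop : 𝔮 ≠ ⊤ := by
    rintro rfl
    rw [Ideal.absNorm_top] at h2
    norm_num at h2
  refine ⟨𝔮, hbot, htop, hdvd, hX, fun E _ _ _ _ art hart hker => ?_⟩
  let _ : CommGroup (E ≃ₐ[K] E) := cgr K E
  have hcard : Nat.card (E ≃ₐ[K] E) = Module.finrank K E := IsGalois.card_aut_eq_finrank K E
  rw [← hcard]
  refine (h 𝔮 hbot htop hN hku).trans ?_
  have := cls_card_le_of hbot htop (artM hart) (fun x => hart.ray x
    (Pool.Agent.Helper503_UI.T1_mem x) (Pool.Agent.Helper503_UI.T1_pos x)) (by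
    intro 𝔞 h1
    obtain ⟨x, y, hx, hy, px, py, hxy⟩ := hker 𝔞 (Mq_cop 𝔞) h1
    have e1 : Pool.Agent.Helper503_UI.pi1 htop ⟨x, hx, px⟩ * 𝔞 =
        Pool.Agent.Helper503_UI.pi1 htop ⟨y, hy, py⟩ * 1 := by
      apply Subtype.ext
      rw [mul_one, Submonoid.coe_mul, Pool.Agent.Helper503_UI.pi1_coe,
        Pool.Agent.Helper503_UI.pi1_coe]
      exact hxy
    have e2 := Pool.Agent.Y767.cls_of_mul e1
    rw [e2, map_one])
  exact_mod_cast this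

end Pool.Agent.H440.TF
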