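import Pool.Agent.H440.TF.Main
import Pool.Agent.H440.CM.Glue

/-!
# The Euler product over an abelian extension of all the twists of a Hecke character (helper440)
-/

set_option autoImplicit false
set_option linter.unusedSectionVars false

open NumberField IsDedekindDomain Complex

namespace Pool.Agent.H440.TF

open Pool.Agent.Y773 (TPos LI zz norm_zz_lt hasSum_log natCast_pow_cpow)
open Pool.Agent.Y767 (Mq Mq_cop Mq_cancel)
open Pool.Agent.Y773.IQ (ofM' ofM'_pos ofM'_supp)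
open Pool.Agent.N784.AD (T1 pi1)
open Pool.Agent.N784.HC (Dn)
open Pool.Agent.H921R2.TatePole (nm nm_eq nm_summable two_le_nm)
open Pool.Agent.N833.CZ (norm_Dn norm_ofM'_le hasProd_M bM bM_iff)
open Pool.Agent.Y773.AB (norm_char sum_log Ab FrobAt split_prime mem_primesOver ne_bot_of_ab)

/-- the multiplicative local identity -/
theorem prod_char {G : Type} [CommGroup G] [Finite G] [Fintype (G →* ℂˣ)] (g : G) {x : ℂ}
    (hx : ‖x‖ < 1) : ∏ χ : G →* ℂˣ, (1 - ((χ g : ℂˣ) : ℂ) * x) =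
      (1 - x ^ orderOf g) ^ (Nat.card G / orderOf g) := by
  have hf : 0 < orderOf g := orderOf_pos g
  have hd : orderOf g ∣ Nat.card G := orderOf_dvd_natCard g
  have h1 := sum_log g hx
  have hne : ∀ y : ℂ, ‖y‖ < 1 → 1 - y ≠ 0 := by
    intro y hy h0
    rw [← sub_eq_zero.mp h0, norm_one] at hy
    exact lt_irrefl _ hy
  have hxf : ‖x ^ orderOf g‖ < 1 := by
    rw [norm_pow]
    exact pow_lt_one₀ (norm_nonneg _) hx hf.ne'
  have h2 : ∏ χ : G →* ℂˣ, (1 - ((χ g : ℂˣ) : ℂ) * x) =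
      Complex.exp (-∑ χ : G →* ℂˣ, -Complex.log (1 - ((χ g : ℂˣ) : ℂ) * x)) := by
    rw [← Finset.sum_neg_distrib, Complex.exp_sum]
    refine Finset.prod_congr rfl fun χ _ => ?_
    rw [neg_neg, Complex.exp_log]
    refine hne _ ?_
    rw [norm_mul, norm_char, one_mul]
    exact hx
  have h3 : (Nat.card G : ℂ) / (orderOf g : ℂ) = ((Nat.card G / orderOf g : ℕ) : ℂ) := by
    rw [Nat.cast_div hd (by exact_mod_cast hf.ne')]
  rw [h2, h1, h3, ← mul_neg, neg_neg, Complex.exp_nat_mul, Complex.exp_log (hne _ hxf)]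

section
variable {K : Type} [Field K] [NumberField K] {𝔮 : Ideal (𝓞 K)}
  {E : Type} [Field E] [NumberField E] [Algebra K E]

open Classical in
/-- the value at a place of `E`, the power of the value at the prime below -/
noncomputable def evA (F : Mq 𝔮 →* ℂˣ) (art : Ideal (𝓞 K) → (E ≃ₐ[K] E))
    (w : HeightOneSpectrum (𝓞 E)) : ℂ :=
  if hc : IsCoprime (bM (algebraMap (𝓞 K) (𝓞 E)) w).1 𝔮 then
    ((F ⟨(bM (algebraMap (𝓞 K) (𝓞 E)) w).1, hc⟩ : ℂˣ) : ℂ) ^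
      orderOf (art (bM (algebraMap (𝓞 K) (𝓞 E)) w).1)
  else 0

lemma ab_iff (w : HeightOneSpectrum (𝓞 E)) (𝔭 : {𝔭 : Ideal (𝓞 K) // Prime 𝔭}) :
    bM (algebraMap (𝓞 K) (𝓞 E)) w = 𝔭 ↔ Ab 𝔭.1 w.asIdeal := by
  rw [bM_iff, Ideal.map_le_iff_le_comap]
  constructor
  · intro h
    exact ⟨w.isPrime, fun x hx => h hx⟩
  · intro h x hx
    exact h.2 x hx

/-- the number of the places above -/
lemma card_bM (𝔭 : {𝔭 : Ideal (𝓞 K) // Prime 𝔭}) :
    Nat.card {w : HeightOneSpectrum (𝓞 E) // bM (algebraMap (𝓞 K) (𝓞 E)) w = 𝔭} =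
      (𝔭.1.primesOver (𝓞 E)).ncard := by
  rw [← Nat.card_coe_set_eq]
  refine Nat.card_congr ⟨fun P => ⟨P.1.asIdeal, (mem_primesOver 𝔭.2 _).mpr ((ab_iff _ _).mp P.2)⟩,
    fun P => ⟨⟨P.1, P.2.1, ne_bot_of_ab 𝔭.2 ((mem_primesOver 𝔭.2 _).mp P.2)⟩, ?_⟩,
    fun P => rfl, fun P => rfl⟩
  exact (ab_iff _ _).mpr ((mem_primesOver 𝔭.2 _).mp P.2)

/-- **the product over the places of the abelian extension** -/
theorem glueA [IsGalois K E] {Γ : Type} [CommGroup Γ] [Finite Γ] [Fintype (Γ →* ℂˣ)]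
    {n : (K →+* ℂ) → ℕ} (hbot : 𝔮 ≠ ⊥) (htop : 𝔮 ≠ ⊤)
    (art : Ideal (𝓞 K) → (E ≃ₐ[K] E)) (A : Mq 𝔮 →* Γ) (φ : Γ ≃* (E ≃ₐ[K] E))
    (hA : ∀ x : Mq 𝔮, φ (A x) = art (x : Ideal (𝓞 K)))
    (hA1 : ∀ x : T1 htop, A (pi1 htop x) = 1)
    (hfr : ∀ (𝔭 : Ideal (𝓞 K)), IsCoprime 𝔭 𝔮 → Prime 𝔭 → FrobAt 𝔭 (art 𝔭))
    {F₁ : Mq 𝔮 →* ℂˣ} (hF₁ : F₁ ∈ Dn n htop) {s : ℂ} (hs : 1 < s.re) :
    HasProd (fun w : HeightOneSpectrum (𝓞 E) =>
      (1 - evA F₁ art w * ((Ideal.absNorm w.asIdeal : ℕ) : ℂ) ^ (-s))⁻¹)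
      (∏ χ : Γ →* ℂˣ, LI (ofM' htop (F₁ * χ.comp A)) s) := by
  classical
  set ι := algebraMap (𝓞 K) (𝓞 E) with hι
  have hmem : ∀ χ : Γ →* ℂˣ, F₁ * χ.comp A ∈ Dn n htop := twA_mem hA1 hF₁
  have hP : HasProd (fun 𝔭 : {𝔭 : Ideal (𝓞 K) // Prime 𝔭} => ∏ χ : Γ →* ℂˣ,
      (1 - zz (ofM' htop (F₁ * χ.comp A)) s 𝔭)⁻¹)
      (∏ χ : Γ →* ℂˣ, LI (ofM' htop (F₁ * χ.comp A)) s) := by
    apply hasProd_prod
    intro χ _
    exact hasProd_M (norm_ofM'_le hbot htop (hmem χ)) hs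
  -- the absolute values
  have hevn : ∀ w : HeightOneSpectrum (𝓞 E), ‖evA F₁ art w‖ ≤ 1 := by
    intro w
    unfold evA
    split_ifs with h
    · rw [norm_pow, norm_Dn hbot htop hF₁, one_pow]
    · rw [norm_zero]
      exact zero_le_one
  -- the local identity
  have hloc : ∀ 𝔭 : {𝔭 : Ideal (𝓞 K) // Prime 𝔭},
      HasProd (fun w : {w : HeightOneSpectrum (𝓞 E) // bM ι w = 𝔭} =>
        (1 - evA F₁ art w.1 * ((Ideal.absNorm w.1.asIdeal : ℕ) : ℂ) ^ (-s))⁻¹)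
      (∏ χ : Γ →* ℂˣ, (1 - zz (ofM' htop (F₁ * χ.comp A)) s 𝔭)⁻¹) := by
    intro 𝔭
    have hcard0 := card_bM (E := E) 𝔭
    rw [← hι] at hcard0
    by_cases hc : IsCoprime 𝔭.1 𝔮
    · have hF := hfr 𝔭.1 hc 𝔭.2
      obtain ⟨P, hP'⟩ := Pool.Agent.Y773.AB.exists_ab (E := E) 𝔭.2
      have h2 := (split_prime 𝔭.2 hF hP').2
      set f := orderOf (art 𝔭.1) with hf
      have hf0 : 0 < f := orderOf_pos _
      have hfA : orderOf (A ⟨𝔭.1, hc⟩) = f := by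
        rw [hf, ← hA ⟨𝔭.1, hc⟩, MulEquiv.orderOf_eq]
      have hcG : Nat.card Γ = Nat.card (E ≃ₐ[K] E) := Nat.card_congr φ.toEquiv
      have hG0 : 0 < Nat.card Γ := Nat.card_pos
      have hval : ∀ w : {w : HeightOneSpectrum (𝓞 E) // bM ι w = 𝔭},
          (1 - evA F₁ art w.1 * ((Ideal.absNorm w.1.asIdeal : ℕ) : ℂ) ^ (-s))⁻¹ =
          (1 - (((F₁ ⟨𝔭.1, hc⟩ : ℂˣ) : ℂ) * ((Ideal.absNorm 𝔭.1 : ℕ) : ℂ) ^ (-s)) ^ f)⁻¹ := by
        rintro ⟨w, hw⟩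
        have hab := (ab_iff w 𝔭).mp hw
        have hN := (split_prime 𝔭.2 hF hab).1
        subst hw
        have h4 : evA F₁ art w = ((F₁ ⟨(bM ι w).1, hc⟩ : ℂˣ) : ℂ) ^ f := by
          unfold evA
          rw [dif_pos hc]
        simp only
        rw [h4, hN, natCast_pow_cpow, mul_pow]
      have hcard' : Nat.card {w : HeightOneSpectrum (𝓞 E) // bM ι w = 𝔭} = Nat.card Γ / f := by
        rw [hcard0, hcG, ← h2, Nat.mul_div_cancel _ hf0]
      have hn0 : (𝔭.1.primesOver (𝓞 E)).ncard ≠ 0 := by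
        intro h0
        rw [h0, zero_mul, ← hcG] at h2
        omega
      have hfinv : Finite {w : HeightOneSpectrum (𝓞 E) // bM ι w = 𝔭} :=
        Nat.finite_of_card_ne_zero (by rw [hcard0]; exact hn0)
      have hft := Fintype.ofFinite {w : HeightOneSpectrum (𝓞 E) // bM ι w = 𝔭}
      have hprod := hasProd_fintype (fun w : {w : HeightOneSpectrum (𝓞 E) // bM ι w = 𝔭} =>
        (1 - evA F₁ art w.1 * ((Ideal.absNorm w.1.asIdeal : ℕ) : ℂ) ^ (-s))⁻¹)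
      have hval2 : (∏ w : {w : HeightOneSpectrum (𝓞 E) // bM ι w = 𝔭},
          (1 - evA F₁ art w.1 * ((Ideal.absNorm w.1.asIdeal : ℕ) : ℂ) ^ (-s))⁻¹) =
          ((1 - (((F₁ ⟨𝔭.1, hc⟩ : ℂˣ) : ℂ) * ((Ideal.absNorm 𝔭.1 : ℕ) : ℂ) ^ (-s)) ^ f)⁻¹) ^
            (Nat.card Γ / f) := by
        rw [Finset.prod_congr rfl (fun v _ => hval v), Finset.prod_const, Finset.card_univ,
          ← Nat.card_eq_fintype_card, hcard']
      rw [hval2] at hprod
      have hnorm : ‖((F₁ ⟨𝔭.1, hc⟩ : ℂˣ) : ℂ) * ((Ideal.absNorm 𝔭.1 : ℕ) : ℂ) ^ (-s)‖ < 1 := by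
        have h4 := norm_zz_lt (ψ := ofM' htop F₁) (norm_ofM'_le hbot htop hF₁)
          (s := s) hs 𝔭.2
        unfold zz at h4
        rw [ofM'_pos htop F₁ hc] at h4
        exact h4
      have h4 := prod_char (A ⟨𝔭.1, hc⟩) hnorm
      rw [hfA] at h4
      have hD : (∏ χ : Γ →* ℂˣ, (1 - zz (ofM' htop (F₁ * χ.comp A)) s 𝔭)⁻¹) =
          ((1 - (((F₁ ⟨𝔭.1, hc⟩ : ℂˣ) : ℂ) * ((Ideal.absNorm 𝔭.1 : ℕ) : ℂ) ^ (-s)) ^ f)⁻¹) ^
            (Nat.card Γ / f) := by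
        rw [Finset.prod_inv_distrib, inv_pow, ← h4]
        congr 1
        refine Finset.prod_congr rfl fun χ _ => ?_
        unfold zz
        rw [ofM'_pos htop _ hc, MonoidHom.mul_apply, MonoidHom.comp_apply, Units.val_mul]
        ring
      rw [hD]
      exact hprod
    · have h4 : ∀ w : {w : HeightOneSpectrum (𝓞 E) // bM ι w = 𝔭},
          (1 - evA F₁ art w.1 * ((Ideal.absNorm w.1.asIdeal : ℕ) : ℂ) ^ (-s))⁻¹ = 1 := by
        rintro ⟨w, hw⟩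
        subst hw
        unfold evA
        simp only
        rw [dif_neg hc, zero_mul, sub_zero, inv_one]
      have h5 : ∏ χ : Γ →* ℂˣ, (1 - zz (ofM' htop (F₁ * χ.comp A)) s 𝔭)⁻¹ = 1 := by
        refine Finset.prod_eq_one fun χ _ => ?_
        have h6 : ofM' htop (F₁ * χ.comp A) 𝔭.1 = 0 := by
          by_contra h7
          exact hc ((ofM'_supp htop _ 𝔭.1).1 h7)
        unfold zz
        rw [h6, zero_mul, sub_zero, inv_one]
      rw [h5]
      simp_rw [h4]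
      exact hasProd_one
  -- multipliability
  have h4 : Multipliable (fun w : HeightOneSpectrum (𝓞 E) =>
      (1 - evA F₁ art w * ((Ideal.absNorm w.asIdeal : ℕ) : ℂ) ^ (-s))⁻¹) := by
    have hsum := nm_summable (K := E) (x := s.re) hs
    have hn : ∀ w : HeightOneSpectrum (𝓞 E),
        ‖evA F₁ art w * ((Ideal.absNorm w.asIdeal : ℕ) : ℂ) ^ (-s)‖ ≤
          ((nm w : ℕ) : ℝ) ^ (-s.re) := by
      intro w
      have h0 : 0 < Ideal.absNorm w.asIdeal := lt_of_lt_of_le two_pos (two_le_nm w)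
      rw [norm_mul, Complex.norm_natCast_cpow_of_pos h0, Complex.neg_re]
      have h1 : 0 ≤ ((Ideal.absNorm w.asIdeal : ℕ) : ℝ) ^ (-s.re) :=
        Real.rpow_nonneg (Nat.cast_nonneg _) _
      calc ‖evA F₁ art w‖ * ((Ideal.absNorm w.asIdeal : ℕ) : ℝ) ^ (-s.re)
          ≤ 1 * ((Ideal.absNorm w.asIdeal : ℕ) : ℝ) ^ (-s.re) :=
            mul_le_mul_of_nonneg_right (hevn w) h1
        _ = _ := one_mul _
    have h5 : Summable (fun w : HeightOneSpectrum (𝓞 E) =>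
        ‖(1 - evA F₁ art w * ((Ideal.absNorm w.asIdeal : ℕ) : ℂ) ^ (-s))⁻¹ - 1‖) := by
      refine Summable.of_norm_bounded_eventually (hsum.mul_left 2) ?_
      have h6 := hsum.tendsto_cofinite_zero.eventually
        (Iio_mem_nhds (by norm_num : (0 : ℝ) < 1 / 2))
      filter_upwards [h6] with w hw
      rw [norm_norm]
      set z := evA F₁ art w * ((Ideal.absNorm w.asIdeal : ℕ) : ℂ) ^ (-s) with hz
      have h7 : ‖z‖ ≤ ((nm w : ℕ) : ℝ) ^ (-s.re) := hn w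
      have h8 : ‖z‖ < 1 / 2 := lt_of_le_of_lt h7 hw
      have h9 : 1 / 2 ≤ ‖1 - z‖ := by
        have := norm_sub_norm_le (1 : ℂ) z
        rw [norm_one] at this
        linarith
      have h10 : (1 - z) ≠ 0 := by
        intro h0
        rw [h0, norm_zero] at h9
        linarith
      have h11 : (1 - z)⁻¹ - 1 = z * (1 - z)⁻¹ := by
        field_simp
        ring
      rw [h11, norm_mul, norm_inv]
      have h12 : ‖1 - z‖⁻¹ ≤ 2 := by
        rw [inv_le_comm₀ (by linarith) two_pos]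
        linarith
      calc ‖z‖ * ‖1 - z‖⁻¹ ≤ ((nm w : ℕ) : ℝ) ^ (-s.re) * 2 :=
            mul_le_mul h7 h12 (by positivity) ((norm_nonneg _).trans h7)
        _ = 2 * ((nm w : ℕ) : ℝ) ^ (-s.re) := mul_comm _ _
    have h7 := multipliable_one_add_of_summable h5
    refine h7.congr (fun v => ?_)
    ring
  rw [← (Equiv.sigmaFiberEquiv (bM ι)).hasProd_iff]
  refine HasProd.sigma_of_hasProd hP (fun 𝔭 => hloc 𝔭) ?_
  exact (Equiv.sigmaFiberEquiv (bM ι)).multipliable_iff.2 h4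

end

end Pool.Agent.H440.TF
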