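import Pool.Agent.H440.TF.Asm

/-! # A lower bound for the number of zeros of the thin family (helper440) -/

set_option autoImplicit false
set_option linter.unusedSectionVars false

open NumberField Filter Topology MeasureTheory

namespace Pool.Agent.H440.TF

open Pool.Agent.Y773 (TPos LI cc)
open Pool.Agent.Y767 (Mq Cls cls cK finite_dual)
open Pool.Agent.Y773.IQ (absNorm_pos' tM LL LL_eq)
open Pool.Agent.N784.AD (pi1)
open Pool.Agent.N784.HC (FamN FamN_norm_le Dn cdN cdN_spec CTyp)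
open H370 (zset NN Ns Nd)

/-- the number of the zeros of one function -/
theorem NN_oneT (d A : ℝ) (hd : 1 ≤ d) (hA : 1 ≤ A) :
    ∃ C : ℝ, 0 < C ∧
    ∀ (L Q T : ℝ) (F : ℂ → ℂ) (a : ℕ → ℂ), 12 ≤ L → 1 ≤ Q →
      Real.log Q ≤ L → W388.LV.GoodG d A Q F a → L ^ 2 ≤ T → T ≤ Real.exp L →
      T / (2 * Real.pi) * (d * Real.log Q) - C * T ≤ (NN F T (2 * T) : ℝ) := by
  obtain ⟨C3, hC3, hlow⟩ := W388.LV.N_lower_D d A hd hA
  have hpi := Real.pi_pos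
  refine ⟨C3 * 4, by positivity, fun L Q T F a hL hQ h2 hG hT1 hT2 => ?_⟩
  obtain ⟨p1, p2, p3, p4, p5, p6⟩ := H385.param_ok 1 L T 1 one_pos le_rfl (by linarith)
    (by linarith) hT1 (by rw [one_mul]; exact hT2)
  have hT0 : 1 ≤ T := by linarith
  have hTp : 0 < T := by linarith
  have hQp : 0 < Q := by linarith
  have hlT : Real.log T ≤ L := by
    have := Real.log_le_log hTp hT2
    rwa [Real.log_exp] at this
  have hlT0 := Real.log_nonneg hT0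
  have hlQ0 := Real.log_nonneg hQ
  have hm : Real.log (Q * T) = Real.log Q + Real.log T := Real.log_mul hQp.ne' hTp.ne'
  have hl := hlow Q F a hQ hG T L p1 p2
  obtain ⟨m, hmd⟩ : ∃ m : ℝ, m = Real.log (Q * T) := ⟨_, rfl⟩
  rw [← hmd] at hm hl
  have hm2 : m ≤ 2 * L := by linarith
  have hm0 : 0 ≤ m := by linarith
  have a2 : L * m ≤ 2 * T := Pool.Agent.Y773.AB.NW.n11 hm2 (by linarith) hT1
  have a3 : T * m ^ 2 * Real.exp (-L ^ 2 / 2) ≤ T := by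
    have b2 : m ^ 2 * Real.exp (-L ^ 2 / 2) ≤ 1 :=
      le_trans (mul_le_mul_of_nonneg_right (Pool.Agent.Y773.AB.NW.n7 hm0 hm2)
        (Real.exp_pos _).le) p6
    calc _ = T * (m ^ 2 * Real.exp (-L ^ 2 / 2)) := by ring
      _ ≤ T * 1 := mul_le_mul_of_nonneg_left b2 hTp.le
      _ = T := mul_one T
  have a4 : C3 * (T + L * m + T * m ^ 2 * Real.exp (-L ^ 2 / 2)) ≤ C3 * (4 * T) :=
    mul_le_mul_of_nonneg_left (by linarith) hC3.le
  have a5 : T / (2 * Real.pi) * (d * Real.log Q) ≤ T / (2 * Real.pi) * (d * m) := by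
    refine mul_le_mul_of_nonneg_left (mul_le_mul_of_nonneg_left ?_ (by linarith)) (by positivity)
    linarith
  linarith

variable (K : Type) [Field K] [NumberField K]

theorem lowT {nt : (K →+* ℂ) → ℕ} (hnt : CTyp nt) (δ : ℝ) (hδ0 : 0 < δ) (hδ1 : δ < 1) (ε : ℝ)
    (hε : 0 < ε) :
    ∃ N1 κ : ℝ, 3 ≤ N1 ∧ 0 < κ ∧ ∀ (𝔮 : Ideal (𝓞 K)) (_ : 𝔮 ≠ ⊥) (htop : 𝔮 ≠ ⊤)
      (H : Subgroup (Cls (pi1 htop) →* ℂˣ)) (F₁ : Mq 𝔮 →* ℂˣ), F₁ ∈ Dn nt htop →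
      N1 ≤ (Ideal.absNorm 𝔮 : ℝ) →
      (Ideal.absNorm 𝔮 : ℝ) ^ δ ≤ Nat.card H →
      ∀ S : Finset (Ideal (𝓞 K) →*₀ ℂ), (∀ ψ, ψ ∈ S ↔ ψ ∈ FamT nt htop H F₁) →
      ∀ T : ℝ, (Real.log (Ideal.absNorm 𝔮)) ^ 2 ≤ T → T ≤ (Ideal.absNorm 𝔮 : ℝ) ^ κ →
        (δ - ε) * (Nat.card H * (T / (2 * Real.pi) * Real.log (Ideal.absNorm 𝔮))) ≤
          ∑ ψ ∈ S, (NN (LL K ψ) T (2 * T) : ℝ) := by
  classical
  obtain ⟨A, hA, hgood⟩ := goodA K hnt
  obtain ⟨n, hn⟩ : ∃ n : ℝ, n = (Module.finrank ℚ K : ℝ) := ⟨_, rfl⟩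
  have hn1 : 1 ≤ n := by
    have := Module.finrank_pos (R := ℚ) (M := K)
    rw [hn]; exact_mod_cast this
  have hn0 : 0 < n := by linarith
  have hni : 0 < 1 / n := by positivity
  have hni1 : 1 / n ≤ 1 := by rw [div_le_one hn0]; exact hn1
  rw [← hn] at hgood
  obtain ⟨s, hs0, hs1, hs2, hs3⟩ : ∃ s : ℝ, 0 < s ∧ 4 * s ≤ ε ∧ 4 * s < δ ∧ s ≤ 1 / 8 := by
    refine ⟨min (min (ε / 4) (δ / 8)) (1 / 8), ?_, ?_, ?_, min_le_right _ _⟩
    · exact lt_min (lt_min (by positivity) (by positivity)) (by norm_num)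
    · have : min (min (ε / 4) (δ / 8)) (1 / 8) ≤ ε / 4 := (min_le_left _ _).trans (min_le_left _ _)
      linarith
    · have : min (min (ε / 4) (δ / 8)) (1 / 8) ≤ δ / 8 := (min_le_left _ _).trans (min_le_right _ _)
      linarith
  obtain ⟨N2, hN2, hnum⟩ := numT K nt δ s hδ0 hs0 (by linarith) (by linarith)
  obtain ⟨N3, hN3, hcd⟩ := numT' K nt δ (δ - s) hδ0 (by linarith) s hs0
  obtain ⟨C, hC, hone⟩ := NN_oneT n A hn1 hA
  have hpi := Real.pi_pos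
  refine ⟨max N2 (max N3 (Real.exp (n * 12 + 2 * Real.pi * C / s))), 1 / n,
    hN2.trans (le_max_left _ _), hni, ?_⟩
  intro 𝔮 hbot htop H F₁ hF₁ hN hH S hS T hT1 hT2
  have k1 : N2 ≤ (Ideal.absNorm 𝔮 : ℝ) := (le_max_left _ _).trans hN
  have k2 : N3 ≤ (Ideal.absNorm 𝔮 : ℝ) := ((le_max_left _ _).trans (le_max_right _ _)).trans hN
  have k3 : Real.exp (n * 12 + 2 * Real.pi * C / s) ≤ (Ideal.absNorm 𝔮 : ℝ) :=
    ((le_max_right _ _).trans (le_max_right _ _)).trans hN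
  have hNp : (0 : ℝ) < (Ideal.absNorm 𝔮 : ℝ) := by linarith
  obtain ⟨-, n2, n4⟩ := hnum 𝔮 hbot htop H F₁ hF₁ k1 hH
  have n3 := hcd 𝔮 hbot htop H F₁ S hS k2 n2
  have hfin := FamT_finite (n := nt) hbot htop H F₁
  have hSf : S = hfin.toFinset := by
    ext ψ
    rw [hS, hfin.mem_toFinset]
  have hcard : ((FamT nt htop H F₁).ncard : ℝ) = (S.card : ℝ) := by
    rw [hSf, Set.ncard_eq_toFinset_card _ hfin]
  rw [hcard] at n2 n4
  obtain ⟨ℓ, hℓ⟩ : ∃ ℓ : ℝ, ℓ = Real.log (Ideal.absNorm 𝔮) := ⟨_, rfl⟩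
  obtain ⟨L, hL⟩ : ∃ L : ℝ, L = 1 / n * Real.log (Ideal.absNorm 𝔮) := ⟨_, rfl⟩
  have hlog : n * 12 + 2 * Real.pi * C / s ≤ Real.log (Ideal.absNorm 𝔮) := by
    rw [Real.le_log_iff_exp_le hNp]; exact k3
  have hpc : 0 ≤ 2 * Real.pi * C / s := by positivity
  have hlog0 : 0 ≤ Real.log (Ideal.absNorm 𝔮) := le_trans (by positivity) hlog
  have hLL1 : 12 ≤ L := by
    rw [hL]
    calc (12 : ℝ) = 1 / n * (n * 12) := by field_simp
      _ ≤ _ := mul_le_mul_of_nonneg_left (by linarith) hni.le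
  have hexpL : Real.exp L = (Ideal.absNorm 𝔮 : ℝ) ^ (1 / n) := by
    rw [Real.rpow_def_of_pos hNp, hL, mul_comm]
  have hT0 : 0 ≤ T := le_trans (sq_nonneg _) hT1
  have hsl : C ≤ s * ℓ / (2 * Real.pi) := by
    rw [le_div_iff₀ (by positivity), hℓ]
    have h1 : 2 * Real.pi * C / s ≤ Real.log (Ideal.absNorm 𝔮) := by
      have : 0 ≤ n * 12 := by positivity
      linarith
    rw [div_le_iff₀ hs0] at h1
    linarith
  have hkey : ∀ ψ ∈ S.filter (fun ψ => ¬ (Ideal.absNorm (cdN nt 𝔮 ψ) : ℝ) ≤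
      (Ideal.absNorm 𝔮 : ℝ) ^ (δ - s)), (δ - 2 * s) * (T / (2 * Real.pi) * ℓ) ≤
        (NN (LL K ψ) T (2 * T) : ℝ) := by
    intro ψ hψ
    obtain ⟨h3, h4⟩ := Finset.mem_filter.mp hψ
    rw [not_le] at h4
    obtain ⟨c1, c2, c3⟩ := cdN_spec ((hS ψ).mp h3).1
    have c4 := one_le_absNorm c3.ne_bot
    have c5 : (0 : ℝ) < (Ideal.absNorm (cdN nt 𝔮 ψ) : ℝ) := by linarith
    obtain ⟨F, hF, hFL, hG⟩ := hgood _ ψ c2 c3
    rw [← LL_eq K hF hFL] at hG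
    have hlQ : Real.log ((Ideal.absNorm (cdN nt 𝔮 ψ) : ℝ) ^ (1 / n)) =
        1 / n * Real.log (Ideal.absNorm (cdN nt 𝔮 ψ)) := Real.log_rpow c5 _
    have h7 := hone L _ T _ _ hLL1 (Real.one_le_rpow c4 hni.le) (by
      rw [hlQ, hL]
      have h6 : Ideal.absNorm (cdN nt 𝔮 ψ) ≤ Ideal.absNorm 𝔮 :=
        Nat.le_of_dvd (absNorm_pos' hbot)
          (Ideal.absNorm_dvd_absNorm_of_le (Ideal.dvd_iff_le.mp c1))
      have h7 := Real.log_le_log c5 (show (Ideal.absNorm (cdN nt 𝔮 ψ) : ℝ) ≤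
        (Ideal.absNorm 𝔮 : ℝ) by exact_mod_cast h6)
      exact mul_le_mul_of_nonneg_left h7 hni.le) hG (by
      refine le_trans ?_ hT1
      rw [hL]
      exact pow_le_pow_left₀ (by positivity) (mul_le_of_le_one_left hlog0 hni1) 2) (by
      rw [hexpL]; exact hT2)
    refine le_trans ?_ h7
    rw [hlQ]
    have h5 := Real.log_lt_log (Real.rpow_pos_of_pos hNp _) h4
    rw [Real.log_rpow hNp, ← hℓ] at h5
    have h8 : n * (1 / n * Real.log (Ideal.absNorm (cdN nt 𝔮 ψ))) =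
        Real.log (Ideal.absNorm (cdN nt 𝔮 ψ)) := by field_simp
    rw [h8]
    have h9 : T / (2 * Real.pi) * ((δ - s) * ℓ) ≤
        T / (2 * Real.pi) * Real.log (Ideal.absNorm (cdN nt 𝔮 ψ)) :=
      mul_le_mul_of_nonneg_left h5.le (by positivity)
    have h10 : C * T ≤ s * ℓ / (2 * Real.pi) * T := mul_le_mul_of_nonneg_right hsl hT0
    have h11 : (δ - 2 * s) * (T / (2 * Real.pi) * ℓ) =
        T / (2 * Real.pi) * ((δ - s) * ℓ) - s * ℓ / (2 * Real.pi) * T := by ring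
    linarith
  have hcount : (1 - s) * (S.card : ℝ) ≤ ((S.filter (fun ψ => ¬ (Ideal.absNorm (cdN nt 𝔮 ψ) : ℝ) ≤
      (Ideal.absNorm 𝔮 : ℝ) ^ (δ - s))).card : ℝ) := by
    have h3 := Finset.card_filter_add_card_filter_not (s := S) (fun ψ =>
      (Ideal.absNorm (cdN nt 𝔮 ψ) : ℝ) ≤ (Ideal.absNorm 𝔮 : ℝ) ^ (δ - s))
    have h4 : ((S.filter (fun ψ => (Ideal.absNorm (cdN nt 𝔮 ψ) : ℝ) ≤
      (Ideal.absNorm 𝔮 : ℝ) ^ (δ - s))).card : ℝ) + ((S.filter (fun ψ => ¬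
        (Ideal.absNorm (cdN nt 𝔮 ψ) : ℝ) ≤ (Ideal.absNorm 𝔮 : ℝ) ^ (δ - s))).card : ℝ) =
        S.card := by
      exact_mod_cast h3
    linarith
  have hHS : (1 - s) * (Nat.card H : ℝ) ≤ S.card := by
    have hH0 : (0 : ℝ) ≤ Nat.card H := Nat.cast_nonneg _
    have h3 : (1 - s) * (1 + s) ≤ 1 + s / 2 := by nlinarith
    have h4 : (1 + s) * ((1 - s) * (Nat.card H : ℝ)) ≤ (1 + s) * S.card := by
      calc (1 + s) * ((1 - s) * (Nat.card H : ℝ)) = ((1 - s) * (1 + s)) * Nat.card H := by ring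
        _ ≤ (1 + s / 2) * Nat.card H := mul_le_mul_of_nonneg_right h3 hH0
        _ ≤ _ := n4
    exact le_of_mul_le_mul_left h4 (by linarith)
  have hZ : 0 ≤ T / (2 * Real.pi) * ℓ := by rw [hℓ]; positivity
  rw [← hℓ]
  calc (δ - ε) * (Nat.card H * (T / (2 * Real.pi) * ℓ))
      ≤ ((1 - s) * (1 - s) * (δ - 2 * s)) * (Nat.card H * (T / (2 * Real.pi) * ℓ)) := by
        refine mul_le_mul_of_nonneg_right ?_ (by positivity)
        have g1 : (1 - 2 * s) * (δ - 2 * s) ≤ (1 - s) * (1 - s) * (δ - 2 * s) := by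
          refine mul_le_mul_of_nonneg_right ?_ (by linarith)
          nlinarith [sq_nonneg s]
        have g2 : s * δ ≤ s * 1 := mul_le_mul_of_nonneg_left hδ1.le hs0.le
        have g3 : 0 ≤ s * s := mul_nonneg hs0.le hs0.le
        have g4 : (1 - 2 * s) * (δ - 2 * s) = δ - 2 * s - 2 * (s * δ) + 4 * (s * s) := by ring
        linarith
    _ = ((1 - s) * ((1 - s) * Nat.card H)) * ((δ - 2 * s) * (T / (2 * Real.pi) * ℓ)) := by ring
    _ ≤ ((1 - s) * S.card) * ((δ - 2 * s) * (T / (2 * Real.pi) * ℓ)) := by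
        refine mul_le_mul_of_nonneg_right (mul_le_mul_of_nonneg_left hHS (by linarith)) ?_
        exact mul_nonneg (by linarith) hZ
    _ ≤ ((S.filter (fun ψ => ¬ (Ideal.absNorm (cdN nt 𝔮 ψ) : ℝ) ≤
        (Ideal.absNorm 𝔮 : ℝ) ^ (δ - s))).card : ℝ) *
          ((δ - 2 * s) * (T / (2 * Real.pi) * ℓ)) := by
        refine mul_le_mul_of_nonneg_right hcount ?_
        exact mul_nonneg (by linarith) hZ
    _ ≤ ∑ ψ ∈ S.filter (fun ψ => ¬ (Ideal.absNorm (cdN nt 𝔮 ψ) : ℝ) ≤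
        (Ideal.absNorm 𝔮 : ℝ) ^ (δ - s)), (NN (LL K ψ) T (2 * T) : ℝ) := by
        have := Finset.card_nsmul_le_sum _ _ ((δ - 2 * s) * (T / (2 * Real.pi) * ℓ)) hkey
        rwa [nsmul_eq_mul] at this
    _ ≤ _ := Finset.sum_le_sum_of_subset_of_nonneg (Finset.filter_subset _ _)
        (fun _ _ _ => Nat.cast_nonneg _)

end Pool.Agent.H440.TF
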