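import Pool.Agent.H440.TF.Chr

/-!
# The zeros of the L-functions of all the twists of a Hecke character by the characters of a large
quotient of a narrow ray class group (helper440)

Adapted from `Pool.Agent.Helper503_HW.MainZK`.
-/

set_option autoImplicit false
set_option linter.unusedSectionVars false

open NumberField Filter Topology MeasureTheory

namespace Pool.Agent.H440.TF

open Pool.Agent.Y773 (TPos LI cc)
open Pool.Agent.Y767 (Mq Mq_cop Mq_ne_bot Cls cls cls_pi cK card_dual finite_dual eq_of_LI)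
open Pool.Agent.Y773.IQ (absNorm_pos' tM ofM' LL LL_eq exists_ge)
open Pool.Agent.N784.AD (pi1 T1)
open Pool.Agent.N784.HC
open Pool.Agent.N784.CZ (dn_cases)
open Pool.Agent.Y773.AB (kap)
open Pool.Agent.Helper503_HW (exists_alpha fin_num)
open H370 (zset NN Ns Nd)

section

variable {K : Type} [Field K] [NumberField K] {n : (K →+* ℂ) → ℕ}

/-- the twists by the characters of the quotient -/
lemma twA_mem {𝔮 : Ideal (𝓞 K)} {htop : 𝔮 ≠ ⊤} {Γ : Type} [CommGroup Γ] {art : Mq 𝔮 →* Γ}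
    (h1 : ∀ x : T1 htop, art (pi1 htop x) = 1) {F₁ : Mq 𝔮 →* ℂˣ} (hF₁ : F₁ ∈ Dn n htop)
    (χ : Γ →* ℂˣ) : F₁ * χ.comp art ∈ Dn n htop := by
  intro x
  rw [MonoidHom.mul_apply, MonoidHom.comp_apply, h1 x, map_one, mul_one, hF₁ x]

/-- the subgroup of the characters of the quotient -/
theorem exists_HT {𝔮 : Ideal (𝓞 K)} (htop : 𝔮 ≠ ⊤) {G : Type} [CommGroup G] [Finite G]
    (art : Mq 𝔮 →* G) (h1 : ∀ x : T1 htop, art (pi1 htop x) = 1)
    (hs : Function.Surjective art) :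
    ∃ H : Subgroup (Cls (pi1 htop) →* ℂˣ), Nat.card H = Nat.card G ∧
      ∀ F₁ : Mq 𝔮 →* ℂˣ, ∀ ψ, ψ ∈ FamT n htop H F₁ ↔
        ψ ∈ FamN n 𝔮 ∧ ∃ χ : G →* ℂˣ, tM 𝔮 ψ = F₁ * χ.comp art := by
  obtain ⟨α, hα⟩ : ∃ α : Cls (pi1 htop) →* G, ∀ x, α (cls (pi1 htop) x) = art x :=
    exists_alpha htop art h1
  have hαs : Function.Surjective α := by
    intro g
    obtain ⟨x, rfl⟩ := hs g
    exact ⟨_, hα x⟩
  have hcomp : ∀ χ : G →* ℂˣ, (χ.comp α).comp (cls (pi1 htop)) = χ.comp art := by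
    intro χ
    refine MonoidHom.ext fun x => ?_
    rw [MonoidHom.comp_apply, MonoidHom.comp_apply, hα, MonoidHom.comp_apply]
  refine ⟨(MonoidHom.compHom' (P := ℂˣ) α).range, ?_, ?_⟩
  · rw [← card_dual G]
    refine (Nat.card_congr (MonoidHom.ofInjective (f := MonoidHom.compHom' (P := ℂˣ) α) ?_).toEquiv).symm
    intro χ χ' h
    refine MonoidHom.ext fun g => ?_
    obtain ⟨c, rfl⟩ := hαs g
    exact DFunLike.congr_fun h c
  · intro F₁ ψ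
    constructor
    · rintro ⟨h2, F, ⟨χ, rfl⟩, h3⟩
      refine ⟨h2, χ, ?_⟩
      rw [h3]
      congr 1
      exact hcomp χ
    · rintro ⟨h2, χ, h3⟩
      refine ⟨h2, _, ⟨χ, rfl⟩, ?_⟩
      rw [h3]
      congr 1
      exact (hcomp χ).symm

end

variable (K : Type) [Field K] [NumberField K]

/-- **the twists of a Hecke character of any type by the characters of a large quotient** -/
theorem mainZT {n : (K →+* ℂ) → ℕ} (hn : CTyp n) (δ : ℝ) (hδ : 2 / 3 < δ) (hδ1 : δ < 1) (ε : ℝ)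
    (hε : 0 < ε) : ∃ η X₀ : ℝ, 0 < η ∧ 1 < X₀ ∧ ∀ (𝔮 : Ideal (𝓞 K)) (_ : 𝔮 ≠ ⊥) (htop : 𝔮 ≠ ⊤)
      (Γ : Type) [CommGroup Γ] [Finite Γ] [Fintype (Γ →* ℂˣ)] (art : Mq 𝔮 →* Γ),
      (∀ x : T1 htop, art (pi1 htop x) = 1) → Function.Surjective art →
      X₀ ≤ (Ideal.absNorm 𝔮 : ℝ) → (Ideal.absNorm 𝔮 : ℝ) ^ δ ≤ Nat.card Γ →
      ∀ F₁ : Mq 𝔮 →* ℂˣ, F₁ ∈ Dn n htop →
      ∀ H : (Γ →* ℂˣ) → ℂ → ℂ, (∀ χ, Differentiable ℂ (H χ)) →
        (∀ χ s, 1 < s.re → H χ s = (s - 1) * LI (ofM' htop (F₁ * χ.comp art)) s) →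
      ∀ T : ℝ, (Real.log (Ideal.absNorm 𝔮)) ^ 2 ≤ T → T ≤ (Ideal.absNorm 𝔮 : ℝ) ^ η →
        1 ≤ T ∧ (∀ χ, (zset (H χ) T (2 * T)).Finite) ∧
        (δ - ε) * (Nat.card Γ * (T / (2 * Real.pi) * Real.log (Ideal.absNorm 𝔮))) ≤
          ∑ χ, (NN (H χ) T (2 * T) : ℝ) ∧
        (2 - kap δ - ε) * ∑ χ, (NN (H χ) T (2 * T) : ℝ) ≤ ∑ χ, (Ns (H χ) T (2 * T) : ℝ) ∧
        (3 - kap δ - ε) / 2 * ∑ χ, (NN (H χ) T (2 * T) : ℝ) ≤
          ∑ χ, (Nd (H χ) T (2 * T) : ℝ) := by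
  classical
  have hδ0 : 0 < δ := by linarith
  obtain ⟨η, X1, hη, hG⟩ := mainT K hn δ hδ hδ1 (ε / 2) (by positivity)
  obtain ⟨N1, κ1, hN1, hκ1, hlow⟩ := lowT K hn δ hδ0 hδ1 (min ε (δ / 2))
    (lt_min hε (by positivity))
  obtain ⟨B, hB, hbase⟩ := crudeT (K := K) hn
  obtain ⟨h, hh⟩ : ∃ h : ℝ, h = Pool.Agent.N784.AD.hK K := ⟨_, rfl⟩
  have hh0 : 0 ≤ h := by rw [hh]; exact Nat.cast_nonneg _
  obtain ⟨W, hW⟩ : ∃ W : ℝ, W = |2 - kap δ - ε| + |(3 - kap δ - ε) / 2| := ⟨_, rfl⟩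
  have hW0 : 0 ≤ W := by rw [hW]; positivity
  obtain ⟨N3, hN3, hbig⟩ := exists_ge (δ / 2) (W * (h * B) * (4 / ε) * 24) (by positivity)
  refine ⟨min (min η κ1) (δ / 2), max (max X1 N1) (max N3 (Real.exp 3)), ?_, ?_, ?_⟩
  · exact lt_min (lt_min hη hκ1) (by positivity)
  · exact lt_of_lt_of_le (by linarith : 1 < N1) ((le_max_right _ _).trans (le_max_left _ _))
  intro 𝔮 hbot htop Γ _ _ _ art h1 hs hX hΓ F₁ hF₁ H hH hHL T hT1 hT2
  have hXX1 : X1 ≤ (Ideal.absNorm 𝔮 : ℝ) := ((le_max_left _ _).trans (le_max_left _ _)).trans hX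
  have hXN1 : N1 ≤ (Ideal.absNorm 𝔮 : ℝ) := ((le_max_right _ _).trans (le_max_left _ _)).trans hX
  have hXN3 : N3 ≤ (Ideal.absNorm 𝔮 : ℝ) := ((le_max_left _ _).trans (le_max_right _ _)).trans hX
  have hXe : Real.exp 3 ≤ (Ideal.absNorm 𝔮 : ℝ) :=
    ((le_max_right _ _).trans (le_max_right _ _)).trans hX
  have hNp : (0 : ℝ) < (Ideal.absNorm 𝔮 : ℝ) := by linarith
  have hNge1 : (1 : ℝ) ≤ (Ideal.absNorm 𝔮 : ℝ) := by linarith
  have hlog3 : 3 ≤ Real.log (Ideal.absNorm 𝔮) := by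
    rw [Real.le_log_iff_exp_le hNp]; exact hXe
  obtain ⟨H', hH', hfam⟩ := exists_HT (n := n) htop art h1 hs
  obtain ⟨S, hS, hSne, -, hGT⟩ := hG 𝔮 hbot htop H' F₁ hF₁ hXX1 (by rw [hH']; exact hΓ)
  have hTη : T ≤ (Ideal.absNorm 𝔮 : ℝ) ^ η := hT2.trans
    (Real.rpow_le_rpow_of_exponent_le hNge1 ((min_le_left _ _).trans (min_le_left _ _)))
  have hTh : T ≤ (Ideal.absNorm 𝔮 : ℝ) ^ κ1 := hT2.trans
    (Real.rpow_le_rpow_of_exponent_le hNge1 ((min_le_left _ _).trans (min_le_right _ _)))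
  have hTδ : T ≤ (Ideal.absNorm 𝔮 : ℝ) ^ (δ / 2) := hT2.trans
    (Real.rpow_le_rpow_of_exponent_le hNge1 (min_le_right _ _))
  obtain ⟨g1, g2, g3, g4⟩ := hGT T hT1 hTη
  rw [Finset.sum_sub_distrib, ← Finset.mul_sum] at g3
  rw [Finset.sum_sub_distrib, ← Finset.mul_sum, ← Finset.mul_sum] at g4
  have hT5 : 5 ≤ T := by nlinarith
  have hT0 : 0 ≤ T := by linarith
  -- lower bound
  have hlowT := hlow 𝔮 hbot htop H' F₁ hF₁ hXN1 (by rw [hH']; exact hΓ) S hS T hT1 hTh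
  rw [hH'] at hlowT
  -- ramified and unramified characters
  obtain ⟨R, hR⟩ : ∃ R : Finset (Γ →* ℂˣ), ∀ χ, χ ∈ R ↔ F₁ * χ.comp art ∉ Dn0 n 𝔮 :=
    ⟨Finset.univ.filter fun χ => F₁ * χ.comp art ∉ Dn0 n 𝔮, fun χ => by simp⟩
  have hex : ∀ χ : Γ →* ℂˣ, ∃ ψ : Ideal (𝓞 K) →*₀ ℂ, χ ∈ R → ψ ∈ FamN n 𝔮 ∧
      tM 𝔮 ψ = F₁ * χ.comp art := by
    intro χ
    by_cases hχ : χ ∈ R
    · rcases dn_cases hbot htop (twA_mem h1 hF₁ χ) with h2 | ⟨ψ, h2, h3⟩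
      · exact absurd h2 ((hR χ).mp hχ)
      · exact ⟨ψ, fun _ => ⟨h2, h3⟩⟩
    · exact ⟨1, fun h => absurd h hχ⟩
  choose Ψ hΨ using hex
  have hram : ∀ χ ∈ R, zset (H χ) T (2 * T) = zset (LL K (Ψ χ)) T (2 * T) ∧
      NN (H χ) T (2 * T) = NN (LL K (Ψ χ)) T (2 * T) ∧
      Ns (H χ) T (2 * T) = Ns (LL K (Ψ χ)) T (2 * T) ∧
      Nd (H χ) T (2 * T) = Nd (LL K (Ψ χ)) T (2 * T) := fun χ hχ =>
    H_ramT hn hbot htop (hΨ χ hχ).1 (hΨ χ hχ).2 (hH χ) (hHL χ) hT0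
  have hinjχ : ∀ χ χ' : Γ →* ℂˣ, F₁ * χ.comp art = F₁ * χ'.comp art → χ = χ' := by
    intro χ χ' he
    have he' := mul_left_cancel he
    refine MonoidHom.ext fun g => ?_
    obtain ⟨x, rfl⟩ := hs g
    exact DFunLike.congr_fun he' x
  have hsumR : ∀ f : (Ideal (𝓞 K) →*₀ ℂ) → ℝ, ∑ χ ∈ R, f (Ψ χ) = ∑ ψ ∈ S, f ψ := by
    intro f
    refine Finset.sum_bij (fun χ _ => Ψ χ) (fun χ hχ => (hS _).mpr
      ((hfam F₁ _).mpr ⟨(hΨ χ hχ).1, χ, (hΨ χ hχ).2⟩)) ?_ ?_ (fun _ _ => rfl)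
    · intro χ hχ χ' hχ' he
      have he' : Ψ χ = Ψ χ' := he
      refine hinjχ χ χ' ?_
      rw [← (hΨ χ hχ).2, ← (hΨ χ' hχ').2, he']
    · intro ψ hψ
      obtain ⟨hψF, χ, hχ⟩ := (hfam F₁ ψ).mp ((hS ψ).mp hψ)
      have hχR : χ ∈ R := by
        rw [hR]
        intro hcon
        rw [← hχ] at hcon
        -- a primitive character of conductor different from one is not of conductor one
        obtain ⟨𝔣, e1, e2, e3⟩ := hψF
        have hψN : ψ ∈ FamN n 𝔮 := ⟨𝔣, e1, e2, e3⟩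
        obtain ⟨x, -, hx0, hx, hx2⟩ := e3.prim ⊤ (by
          rw [← Ideal.one_eq_top]; exact one_dvd _) (fun h => e2 h.symm)
        obtain ⟨z, hz1, hz2⟩ := Pool.Agent.Y773.IQ.exists_cop_lift (Ideal.dvd_iff_le.mp e1)
          hbot hx
        obtain ⟨z', k1, -, k2⟩ := Pool.Agent.Helper503_UI.lift_tpos hbot z
        have hz3 : z' - x ∈ 𝔣 := by
          have : z' - x = (z' - z) + (z - x) := by ring
          rw [this]
          exact add_mem (Ideal.dvd_iff_le.mp e1 k2) hz2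
        have hzc : IsCoprime (Ideal.span {z'}) 𝔮 := Pool.Agent.Y773.IQ.cop_congr k2 hz1
        have h5 := hcon z' hzc k1
        rw [tM_coe htop hψN] at h5
        have hzx0 : x ≠ 0 := by
          rintro rfl
          rw [Ideal.isCoprime_iff_sup_eq, Ideal.span_singleton_eq_bot.mpr rfl, bot_sup_eq] at hx
          exact e2 hx
        have hzz0 : z' ≠ 0 := Pool.Agent.Y773.IQ.ne_zero_of_cop htop hzc
        have h6 := e3.congr hzx0 hzz0 hx0 k1 hx hz3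
        have h7 : ψ (Ideal.span {z'}) = ph n (z' : K) := h5
        rw [h7, mul_comm] at h6
        have h8 : ph n (z' : K) ≠ 0 := ph_ne n (coe_ne hzz0)
        exact hx2 (mul_left_cancel₀ h8 h6)
      refine ⟨χ, hχR, ?_⟩
      exact tM_inj hbot htop (hΨ χ hχR).1 hψF ((hΨ χ hχR).2.trans hχ.symm)
  have hunr : ∀ χ, χ ∉ R → (zset (H χ) T (2 * T)).Finite ∧
      (NN (H χ) T (2 * T) : ℝ) ≤ B * T ^ 2 := fun χ hχ => by
    rw [hR, not_not] at hχ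
    exact hbase 𝔮 hbot htop _ hχ (H χ) (hH χ) (hHL χ) T hT5
  -- splitting the sums
  have hsplit : ∀ f : (Γ →* ℂˣ) → ℝ, ∑ χ, f χ = ∑ χ ∈ R, f χ + ∑ χ ∈ Rᶜ, f χ := fun f =>
    (Finset.sum_add_sum_compl R f).symm
  obtain ⟨A, hA⟩ : ∃ A : ℝ, A = ∑ ψ ∈ S, (NN (LL K ψ) T (2 * T) : ℝ) := ⟨_, rfl⟩
  obtain ⟨b, hb⟩ : ∃ b : ℝ, b = ∑ χ ∈ Rᶜ, (NN (H χ) T (2 * T) : ℝ) := ⟨_, rfl⟩
  have hNNsum : ∑ χ, (NN (H χ) T (2 * T) : ℝ) = A + b := by
    rw [hsplit, hb, hA, ← hsumR (fun ψ => (NN (LL K ψ) T (2 * T) : ℝ))]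
    congr 1
    exact Finset.sum_congr rfl fun χ hχ => by rw [(hram χ hχ).2.1]
  have hNssum : ∑ χ, (Ns (H χ) T (2 * T) : ℝ) = ∑ ψ ∈ S, (Ns (LL K ψ) T (2 * T) : ℝ) +
      ∑ χ ∈ Rᶜ, (Ns (H χ) T (2 * T) : ℝ) := by
    rw [hsplit, ← hsumR (fun ψ => (Ns (LL K ψ) T (2 * T) : ℝ))]
    congr 1
    exact Finset.sum_congr rfl fun χ hχ => by rw [(hram χ hχ).2.2.1]
  have hNdsum : ∑ χ, (Nd (H χ) T (2 * T) : ℝ) = ∑ ψ ∈ S, (Nd (LL K ψ) T (2 * T) : ℝ) +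
      ∑ χ ∈ Rᶜ, (Nd (H χ) T (2 * T) : ℝ) := by
    rw [hsplit, ← hsumR (fun ψ => (Nd (LL K ψ) T (2 * T) : ℝ))]
    congr 1
    exact Finset.sum_congr rfl fun χ hχ => by rw [(hram χ hχ).2.2.2]
  have hb0 : 0 ≤ b := by rw [hb]; exact Finset.sum_nonneg fun _ _ => Nat.cast_nonneg _
  have hbU : b ≤ h * B * T ^ 2 := by
    have hcard : ((Rᶜ).card : ℝ) ≤ h := by
      rw [hh]
      have h5 : (Rᶜ).card ≤ Pool.Agent.N784.AD.hK K := by
        refine le_trans ?_ (Dn0_card (n := n) hbot htop)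
        rw [← Set.ncard_coe_finset]
        refine Set.ncard_le_ncard_of_injOn (fun χ => F₁ * χ.comp art) (fun χ hχ => ?_)
          (fun χ _ χ' _ he => hinjχ χ χ' he)
          ((Dn_card_le (n := n) hbot htop).1.subset (Dn0_sub htop))
        rw [Finset.mem_coe, Finset.mem_compl, hR, not_not] at hχ
        exact hχ
      exact_mod_cast h5
    have h3 : b ≤ (Rᶜ).card * (B * T ^ 2) := by
      rw [hb, ← nsmul_eq_mul]
      refine Finset.sum_le_card_nsmul _ _ _ fun χ hχ => ?_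
      have hχ1 : χ ∉ R := by simpa using hχ
      exact (hunr χ hχ1).2
    calc b ≤ (Rᶜ).card * (B * T ^ 2) := h3
      _ ≤ h * (B * T ^ 2) := mul_le_mul_of_nonneg_right hcard (by positivity)
      _ = _ := by ring
  have hπ3 := Real.pi_gt_three
  have hπ4 := Real.pi_lt_four
  have hΓ0 : (0 : ℝ) ≤ Nat.card Γ := Nat.cast_nonneg _
  have hlogn : 0 ≤ Real.log (Ideal.absNorm 𝔮) := by linarith
  have hZ0 : 0 ≤ Nat.card Γ * (T / (2 * Real.pi) * Real.log (Ideal.absNorm 𝔮)) := by positivity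
  have hAlow : (δ - min ε (δ / 2)) * (Nat.card Γ * (T / (2 * Real.pi) *
      Real.log (Ideal.absNorm 𝔮))) ≤ A := by rw [hA]; exact hlowT
  have hA1 : (δ - ε) * (Nat.card Γ * (T / (2 * Real.pi) * Real.log (Ideal.absNorm 𝔮))) ≤ A := by
    refine le_trans (mul_le_mul_of_nonneg_right ?_ hZ0) hAlow
    have := min_le_left ε (δ / 2)
    linarith
  have hA2 : (Nat.card Γ : ℝ) * T ≤ 24 * A := by
    have e1 : δ / 2 ≤ δ - min ε (δ / 2) := by
      have := min_le_right ε (δ / 2)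
      linarith
    have e2 := (mul_le_mul_of_nonneg_right e1 hZ0).trans hAlow
    have e3 : T / 8 ≤ T / (2 * Real.pi) := div_le_div_of_nonneg_left hT0 (by positivity)
      (by linarith)
    have e4 : T / 8 * 3 ≤ T / (2 * Real.pi) * Real.log (Ideal.absNorm 𝔮) :=
      mul_le_mul e3 hlog3 (by norm_num) (by positivity)
    have e5 : Nat.card Γ * (T / 8 * 3) ≤ Nat.card Γ * (T / (2 * Real.pi) *
      Real.log (Ideal.absNorm 𝔮)) := mul_le_mul_of_nonneg_left e4 hΓ0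
    have e6 : 1 / 3 * (Nat.card Γ * (T / 8 * 3)) ≤ δ / 2 * (Nat.card Γ * (T / (2 * Real.pi) *
      Real.log (Ideal.absNorm 𝔮))) := mul_le_mul (by linarith) e5 (by positivity) (by linarith)
    have e7 : 0 ≤ (Nat.card Γ : ℝ) * T := by positivity
    have e8 : 1 / 3 * ((Nat.card Γ : ℝ) * (T / 8 * 3)) = (Nat.card Γ : ℝ) * T / 8 := by ring
    have e9 := e6.trans e2
    rw [e8] at e9
    linarith
  -- the comparison
  have hcmp : W * b ≤ ε / 4 * A := by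
    have k1 := hbig _ hXN3
    have k2 : W * b ≤ W * (h * B * T ^ 2) := mul_le_mul_of_nonneg_left hbU hW0
    have k3 : W * (h * B) * (4 / ε) * 24 * T ≤ Nat.card Γ := by
      have k4 : (Ideal.absNorm 𝔮 : ℝ) ^ (δ / 2) * (Ideal.absNorm 𝔮 : ℝ) ^ (δ / 2) =
          (Ideal.absNorm 𝔮 : ℝ) ^ δ := by
        rw [← Real.rpow_add hNp]; congr 1; ring
      have k5 : 0 ≤ W * (h * B) * (4 / ε) * 24 := by positivity
      calc W * (h * B) * (4 / ε) * 24 * T ≤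
            (Ideal.absNorm 𝔮 : ℝ) ^ (δ / 2) * (Ideal.absNorm 𝔮 : ℝ) ^ (δ / 2) :=
            mul_le_mul k1 hTδ hT0 (by positivity)
        _ = _ := k4
        _ ≤ _ := hΓ
    have k6 : 24 * (W * (h * B) * T) ≤ ε / 4 * Nat.card Γ := by
      have : W * (h * B) * (4 / ε) * 24 * T = (4 / ε) * (24 * (W * (h * B) * T)) := by ring
      rw [this] at k3
      have k7 := mul_le_mul_of_nonneg_left k3 (show 0 ≤ ε / 4 by positivity)
      have k8 : ε / 4 * ((4 / ε) * (24 * (W * (h * B) * T))) = 24 * (W * (h * B) * T) := by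
        field_simp
      rwa [k8] at k7
    have k9 := mul_le_mul_of_nonneg_right k6 hT0
    have k10 : ε / 4 * (Nat.card Γ * T) ≤ ε / 4 * (24 * A) :=
      mul_le_mul_of_nonneg_left hA2 (by positivity)
    have k11 : 24 * (W * (h * B * T ^ 2)) ≤ 24 * (ε / 4 * A) := by
      calc 24 * (W * (h * B * T ^ 2)) = 24 * (W * (h * B) * T) * T := by ring
        _ ≤ ε / 4 * Nat.card Γ * T := k9
        _ = ε / 4 * (Nat.card Γ * T) := by ring
        _ ≤ ε / 4 * (24 * A) := k10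
        _ = _ := by ring
    linarith
  have hA0 : 0 ≤ A := by
    have : 0 ≤ (Nat.card Γ : ℝ) * T := by positivity
    linarith
  refine ⟨g1, fun χ => ?_, ?_, ?_, ?_⟩
  · by_cases hχ : χ ∈ R
    · rw [(hram χ hχ).1]
      refine g2 _ ((hS _).mpr ((hfam F₁ _).mpr ⟨(hΨ χ hχ).1, χ, (hΨ χ hχ).2⟩))
    · exact (hunr χ hχ).1
  · rw [hNNsum]
    linarith
  · rw [hNNsum, hNssum]
    refine fin_num (ε' := ε / 2) (W := W) ?_ hb0 ?_ (Finset.sum_nonneg fun _ _ => Nat.cast_nonneg _) ?_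
    · rw [hW]
      exact le_add_of_nonneg_right (abs_nonneg _)
    · rw [hA]
      linarith
    · refine hcmp.trans ?_
      exact mul_le_mul_of_nonneg_right (by linarith) hA0
  · rw [hNNsum, hNdsum]
    refine fin_num (ε' := ε / 4) (W := W) ?_ hb0 ?_ (Finset.sum_nonneg fun _ _ => Nat.cast_nonneg _) hcmp
    · rw [hW]
      exact le_add_of_nonneg_left (abs_nonneg _)
    · rw [hA]
      linarith

end Pool.Agent.H440.TF
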