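import Pool.Agent.H440.TF.Thn

/-!
# Thin families of Hecke characters: the number of characters and the conductors (helper440)

Adapted from `Pool.Agent.Helper503_HW.NumK`.
-/

set_option autoImplicit false
set_option linter.unusedSectionVars false

open NumberField Filter Topology MeasureTheory

namespace Pool.Agent.H440.TF

open Pool.Agent.Y773 (TPos cc LI)
open Pool.Agent.Y767 (Mq Mq_cop Mq_ne_bot Cls cls cls_pi cK card_dual finite_dual)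
open Pool.Agent.Y773.IQ (absNorm_pos' tM card_units_le_norm dv divisor_bound exists_ge)
open Pool.Agent.Helper503_UI (ku)
open Pool.Agent.Helper503_HW (ker_ku_le)
open Pool.Agent.N784.AD (pi1 cls_card_le T1)
open Pool.Agent.N784.HC (FamN Dn Dn0 tM_coe tM_inj tM_mem FamN_finite Dn0_card Dn0_sub Dn_card_le
  exists_prim cdN cdN_spec small_cond CTyp IsHecke goodH)
open Pool.Agent.Y773.AB (ev)

section

variable {K : Type} [Field K] [NumberField K]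

/-- the primitive characters in the thin family -/
def FamT (n : (K →+* ℂ) → ℕ) {𝔮 : Ideal (𝓞 K)} (htop : 𝔮 ≠ ⊤) (H : Subgroup (Cls (pi1 htop) →* ℂˣ))
    (F₁ : Mq 𝔮 →* ℂˣ) : Set (Ideal (𝓞 K) →*₀ ℂ) :=
  {ψ | ψ ∈ FamN n 𝔮 ∧ ∃ F ∈ H, tM 𝔮 ψ = F₁ * F.comp (cls (pi1 htop))}

variable {n : (K →+* ℂ) → ℕ}

lemma FamT_sub {𝔮 : Ideal (𝓞 K)} (htop : 𝔮 ≠ ⊤) (H : Subgroup (Cls (pi1 htop) →* ℂˣ))
    (F₁ : Mq 𝔮 →* ℂˣ) : FamT n htop H F₁ ⊆ FamN n 𝔮 := fun _ h => h.1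

lemma FamT_finite {𝔮 : Ideal (𝓞 K)} (hbot : 𝔮 ≠ ⊥) (htop : 𝔮 ≠ ⊤)
    (H : Subgroup (Cls (pi1 htop) →* ℂˣ)) (F₁ : Mq 𝔮 →* ℂˣ) : (FamT n htop H F₁).Finite :=
  (FamN_finite (n := n) hbot htop).1.subset (FamT_sub htop H F₁)

/-- the twist of a character of a given type is of the same type -/
lemma twist_mem {𝔮 : Ideal (𝓞 K)} (htop : 𝔮 ≠ ⊤) {F₁ : Mq 𝔮 →* ℂˣ} (hF₁ : F₁ ∈ Dn n htop)
    (F : Cls (pi1 htop) →* ℂˣ) : F₁ * F.comp (cls (pi1 htop)) ∈ Dn n htop := by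
  intro x
  have h1 : F (cls (pi1 htop) (pi1 htop x)) = 1 := by
    rw [cls_pi, map_one]
  rw [MonoidHom.mul_apply, MonoidHom.comp_apply, h1, mul_one, hF₁ x]

lemma FamT_lower {𝔮 : Ideal (𝓞 K)} (hbot : 𝔮 ≠ ⊥) (htop : 𝔮 ≠ ⊤)
    (H : Subgroup (Cls (pi1 htop) →* ℂˣ)) {F₁ : Mq 𝔮 →* ℂˣ} (hF₁ : F₁ ∈ Dn n htop) :
    Nat.card H ≤ (FamT n htop H F₁).ncard + Pool.Agent.N784.AD.hK K := by
  have hfc : Finite (Cls (pi1 htop)) := (cls_card_le hbot htop).1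
  have hfd := finite_dual (Cls (pi1 htop))
  have hfH : Finite H := inferInstance
  have hinj : Function.Injective (fun F : H =>
      F₁ * (F : Cls (pi1 htop) →* ℂˣ).comp (cls (pi1 htop))) := by
    intro F F' h
    have h' := mul_left_cancel h
    apply Subtype.ext
    refine MonoidHom.ext fun c => ?_
    obtain ⟨𝔞, rfl⟩ := Pool.Agent.Helper503_UI.exists_rep hbot htop c
    exact DFunLike.congr_fun h' 𝔞
  have hsub : Set.range (fun F : H => F₁ * (F : Cls (pi1 htop) →* ℂˣ).comp (cls (pi1 htop))) ⊆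
      tM 𝔮 '' FamT n htop H F₁ ∪ Dn0 n 𝔮 := by
    rintro _ ⟨F, rfl⟩
    rcases exists_prim hbot htop (F₁ * (F : Cls (pi1 htop) →* ℂˣ).comp (cls (pi1 htop)))
      (twist_mem htop hF₁ F) with h | ⟨𝔣, ψ, h3, h4, h5, h6⟩
    · exact Or.inr h
    · left
      have hψ : ψ ∈ FamN n 𝔮 := ⟨𝔣, h3, h4, h5⟩
      have he : tM 𝔮 ψ = F₁ * (F : Cls (pi1 htop) →* ℂˣ).comp (cls (pi1 htop)) := by
        ext x
        rw [tM_coe htop hψ, h6]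
      exact ⟨ψ, ⟨hψ, F.1, F.2, he⟩, he⟩
  have hf := FamT_finite (n := n) hbot htop H F₁
  have h3 : Nat.card H = (Set.range (fun F : H =>
      F₁ * (F : Cls (pi1 htop) →* ℂˣ).comp (cls (pi1 htop)))).ncard := by
    rw [← Set.image_univ, Set.ncard_image_of_injective _ hinj, Set.ncard_univ]
  rw [h3]
  refine (Set.ncard_le_ncard hsub ((hf.image _).union
    ((Dn_card_le (n := n) hbot htop).1.subset (Dn0_sub htop)))).trans ?_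
  refine (Set.ncard_union_le _ _).trans ?_
  exact Nat.add_le_add (Set.ncard_image_le hf) (Dn0_card hbot htop)

lemma hK_pos (K : Type) [Field K] [NumberField K] : 1 ≤ Pool.Agent.N784.AD.hK K := by
  unfold Pool.Agent.N784.AD.hK
  have h1 : 0 < Nat.card (ClassGroup (𝓞 K)) := Nat.card_pos
  have h2 : 0 < Nat.card ((K →+* ℝ) → Prop) := Nat.card_pos
  exact Nat.mul_pos h1 h2

lemma one_le_absNorm {𝔮 : Ideal (𝓞 K)} (h : 𝔮 ≠ ⊥) : (1 : ℝ) ≤ (Ideal.absNorm 𝔮 : ℝ) := by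
  exact_mod_cast absNorm_pos' h

variable (K)

/-- the numerical facts -/
theorem numT (n : (K →+* ℂ) → ℕ) (δ s : ℝ) (hδ0 : 0 < δ) (hs : 0 < s) (hsδ : s < δ)
    (hs1 : s ≤ 1) :
    ∃ N0 : ℝ, 3 ≤ N0 ∧ ∀ (𝔮 : Ideal (𝓞 K)) (_ : 𝔮 ≠ ⊥) (htop : 𝔮 ≠ ⊤)
      (H : Subgroup (Cls (pi1 htop) →* ℂˣ)) (F₁ : Mq 𝔮 →* ℂˣ), F₁ ∈ Dn n htop →
      N0 ≤ (Ideal.absNorm 𝔮 : ℝ) →
      (Ideal.absNorm 𝔮 : ℝ) ^ δ ≤ Nat.card H →
      ((Nat.card (ev H).ker * ku 𝔮 : ℕ) : ℝ) ≤ (Ideal.absNorm 𝔮 : ℝ) ^ (1 - δ + s) ∧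
      (1 / 2) * (Ideal.absNorm 𝔮 : ℝ) ^ δ ≤ ((FamT n htop H F₁).ncard : ℝ) ∧
      (1 + s / 2) * Nat.card H ≤ (1 + s) * ((FamT n htop H F₁).ncard : ℝ) := by
  obtain ⟨h, hh⟩ : ∃ h : ℝ, h = (Pool.Agent.N784.AD.hK K : ℝ) + Pool.Agent.Helper503_UI.hK K :=
    ⟨_, rfl⟩
  have hh0 : 1 ≤ h := by
    have h1 : (1 : ℝ) ≤ (Pool.Agent.N784.AD.hK K : ℝ) := by exact_mod_cast hK_pos K
    have h2 : (0 : ℝ) ≤ (Pool.Agent.Helper503_UI.hK K : ℝ) := Nat.cast_nonneg _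
    rw [hh]
    linarith
  have hh1 : (Pool.Agent.N784.AD.hK K : ℝ) ≤ h := by
    rw [hh]
    exact le_add_of_nonneg_right (Nat.cast_nonneg _)
  have hh2 : (Pool.Agent.Helper503_UI.hK K : ℝ) ≤ h := by
    rw [hh]
    exact le_add_of_nonneg_left (Nat.cast_nonneg _)
  obtain ⟨N1, hN1, h1⟩ := exists_ge s h hs
  obtain ⟨N2, hN2, h2⟩ := exists_ge δ (4 * h / s + 2 * h) hδ0
  refine ⟨max 3 (max N1 N2), le_max_left _ _, fun 𝔮 hbot htop H F₁ hF₁ hN hH => ?_⟩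
  have k1 := h1 _ (((le_max_left _ _).trans (le_max_right _ _)).trans hN)
  have k2 := h2 _ (((le_max_right _ _).trans (le_max_right _ _)).trans hN)
  have hfc : Finite (Cls (pi1 htop)) := (cls_card_le hbot htop).1
  have hl := FamT_lower hbot htop H hF₁
  have hl' : (Nat.card H : ℝ) ≤ ((FamT n htop H F₁).ncard : ℝ) + h := by
    have h3 : (Nat.card H : ℝ) ≤ ((FamT n htop H F₁).ncard : ℝ) + Pool.Agent.N784.AD.hK K := by
      exact_mod_cast hl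
    linarith
  obtain ⟨N, hNd⟩ : ∃ N : ℝ, N = (Ideal.absNorm 𝔮 : ℝ) := ⟨_, rfl⟩
  have hNge : 1 ≤ N := by rw [hNd]; exact one_le_absNorm hbot
  have hNp : 0 < N := by linarith
  have hcl : ((Nat.card (ev H).ker * ku 𝔮 : ℕ) : ℝ) * Nat.card H ≤
      (Ideal.absNorm 𝔮 : ℝ) * h := by
    have h3 : ((Nat.card (ev H).ker * ku 𝔮 : ℕ) : ℝ) * Nat.card H ≤
        (Ideal.absNorm 𝔮 : ℝ) * Pool.Agent.Helper503_UI.hK K := by
      exact_mod_cast ker_ku_le hbot htop H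
    exact h3.trans (mul_le_mul_of_nonneg_left hh2 (Nat.cast_nonneg _))
  rw [← hNd] at k1 k2 hH hcl ⊢
  have hNδ : 0 < N ^ δ := Real.rpow_pos_of_pos hNp _
  have hHp : 0 < (Nat.card H : ℝ) := lt_of_lt_of_le hNδ hH
  refine ⟨?_, ?_, ?_⟩
  · have h4 : ((Nat.card (ev H).ker * ku 𝔮 : ℕ) : ℝ) * N ^ δ ≤ N * N ^ s := by
      calc _ ≤ ((Nat.card (ev H).ker * ku 𝔮 : ℕ) : ℝ) * Nat.card H :=
            mul_le_mul_of_nonneg_left hH (Nat.cast_nonneg _)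
        _ ≤ N * h := hcl
        _ ≤ _ := mul_le_mul_of_nonneg_left k1 hNp.le
    have h5 : N ^ (1 - δ + s) * N ^ δ = N * N ^ s := by
      rw [← Real.rpow_add hNp]
      calc N ^ (1 - δ + s + δ) = N ^ (1 + s) := by congr 1; ring
        _ = _ := by rw [Real.rpow_add hNp, Real.rpow_one]
    rw [← h5] at h4
    exact le_of_mul_le_mul_right h4 hNδ
  · have h3 : 2 * h ≤ N ^ δ := by
      have : 0 ≤ 4 * h / s := by positivity
      linarith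
    linarith
  · have h3 : 4 * h ≤ s * N ^ δ := by
      have h4 : 4 * h / s ≤ N ^ δ := by linarith
      rw [div_le_iff₀ hs] at h4
      linarith
    have h4 : 4 * h ≤ s * Nat.card H := h3.trans (mul_le_mul_of_nonneg_left hH hs.le)
    have h5 : (1 + s) * (Nat.card H : ℝ) ≤ (1 + s) * (((FamT n htop H F₁).ncard : ℝ) + h) :=
      mul_le_mul_of_nonneg_left hl' (by linarith)
    have h6 : (1 + s) * h ≤ 2 * h := mul_le_mul_of_nonneg_right (by linarith) (by linarith)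
    nlinarith

/-- few small conductors -/
theorem numT' (n : (K →+* ℂ) → ℕ) (δ y : ℝ) (hδ0 : 0 < δ) (hy : y < δ) (ρ : ℝ)
    (hρ : 0 < ρ) : ∃ N0 : ℝ, 1 ≤ N0 ∧ ∀ (𝔮 : Ideal (𝓞 K)) (_ : 𝔮 ≠ ⊥) (htop : 𝔮 ≠ ⊤)
      (H : Subgroup (Cls (pi1 htop) →* ℂˣ)) (F₁ : Mq 𝔮 →* ℂˣ) (S : Finset (Ideal (𝓞 K) →*₀ ℂ)),
      (∀ ψ, ψ ∈ S ↔ ψ ∈ FamT n htop H F₁) → N0 ≤ (Ideal.absNorm 𝔮 : ℝ) →
      (1 / 2) * (Ideal.absNorm 𝔮 : ℝ) ^ δ ≤ ((FamT n htop H F₁).ncard : ℝ) →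
      (open Classical in
        ((S.filter (fun ψ => (Ideal.absNorm (cdN n 𝔮 ψ) : ℝ) ≤
          (Ideal.absNorm 𝔮 : ℝ) ^ y)).card : ℝ)) ≤ ρ * S.card := by
  classical
  obtain ⟨C, hC, hdiv⟩ := divisor_bound K (ε := (δ - y) / 2) (by linarith)
  obtain ⟨h, hh⟩ : ∃ h : ℝ, h = Pool.Agent.N784.AD.hK K := ⟨_, rfl⟩
  have hh0 : 0 ≤ h := by rw [hh]; exact Nat.cast_nonneg _
  obtain ⟨N1, hN1, h1⟩ := exists_ge ((δ - y) / 2) (2 * C * h / ρ) (by linarith)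
  refine ⟨N1, hN1, fun 𝔮 hbot htop H F₁ S hS hN hlow => ?_⟩
  have k2 := h1 _ hN
  obtain ⟨N, hNd⟩ : ∃ N : ℝ, N = (Ideal.absNorm 𝔮 : ℝ) := ⟨_, rfl⟩
  have hNge : 1 ≤ N := by rw [hNd]; exact one_le_absNorm hbot
  have hNp : 0 < N := by linarith
  have hSc : (S.card : ℝ) = ((FamT n htop H F₁).ncard : ℝ) := by
    have : (FamT n htop H F₁) = (S : Set _) := by
      ext ψ; rw [Finset.mem_coe, hS]
    rw [this, Set.ncard_coe_finset]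
  rw [← hSc] at hlow
  rw [← hNd] at k2 hlow ⊢
  have m1 := small_cond (n := n) hbot (N ^ y) (Real.rpow_nonneg hNp.le _)
    (S.filter (fun ψ => (Ideal.absNorm (cdN n 𝔮 ψ) : ℝ) ≤ N ^ y)) (by
    intro ψ hψ
    obtain ⟨u1, u2⟩ := Finset.mem_filter.mp hψ
    exact ⟨((hS ψ).mp u1).1, u2⟩)
  have v1 := hdiv 𝔮 hbot
  rw [← hNd] at v1
  rw [← hh] at m1
  have hNy : 0 < N ^ y := Real.rpow_pos_of_pos hNp _
  have hNe : 0 < N ^ ((δ - y) / 2) := Real.rpow_pos_of_pos hNp _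
  have v2 : N ^ ((δ - y) / 2) * N ^ y * N ^ ((δ - y) / 2) = N ^ δ := by
    rw [← Real.rpow_add hNp, ← Real.rpow_add hNp]
    congr 1; ring
  rw [div_le_iff₀ hρ] at k2
  calc _ ≤ (dv 𝔮).ncard * (N ^ y * h) := m1
    _ ≤ (C * N ^ ((δ - y) / 2)) * (N ^ y * h) := mul_le_mul_of_nonneg_right v1 (by positivity)
    _ = (N ^ ((δ - y) / 2) * N ^ y) * (C * h) := by ring
    _ ≤ (N ^ ((δ - y) / 2) * N ^ y) * (N ^ ((δ - y) / 2) * ρ / 2) := by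
        refine mul_le_mul_of_nonneg_left ?_ (by positivity)
        linarith
    _ = ρ * (1 / 2 * (N ^ ((δ - y) / 2) * N ^ y * N ^ ((δ - y) / 2))) := by ring
    _ ≤ _ := by
        rw [v2]
        exact mul_le_mul_of_nonneg_left hlow hρ.le

/-- the L-functions of the primitive Hecke characters of any type -/
theorem goodA {n : (K →+* ℂ) → ℕ} (hn : CTyp n) :
    ∃ A : ℝ, 1 ≤ A ∧ ∀ (𝔣 : Ideal (𝓞 K)) (ψ : Ideal (𝓞 K) →*₀ ℂ), 𝔣 ≠ ⊤ →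
    IsHecke K 𝔣 n ψ → ∃ F : ℂ → ℂ, Differentiable ℂ F ∧
      (∀ s : ℂ, 1 < s.re → F s = LI ψ s) ∧
    W388.LV.GoodG (Module.finrank ℚ K) A ((Ideal.absNorm 𝔣 : ℝ) ^ (1 / (Module.finrank ℚ K : ℝ)))
      F (fun m => cc ψ m * (ArithmeticFunction.vonMangoldt m : ℂ)) := by
  by_cases hn0 : n = 0
  · subst hn0
    obtain ⟨A, hA, h⟩ := Pool.Agent.Y773.IQ.good K
    exact ⟨A, hA, fun 𝔣 ψ htop hψ => h 𝔣 ψ htop (Pool.Agent.N784.CZ.toPrimChar hψ)⟩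
  · exact goodH K hn hn0

end

end Pool.Agent.H440.TF
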