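import Pool.Graph.R_pool_sql_team_seeded_620a6dc7.Helper503_HW.FinK
import Pool.Graph.R_pool_sql_team_seeded_63374d34.N784.CZ.Crx

/-!
# The large sieve for thin families of Hecke characters of a given type (helper440)

Adapted from `Pool.Agent.Helper503_HW.Thn`, where the characters are of finite order.
-/

set_option autoImplicit false
set_option linter.unusedSectionVars false

open NumberField

namespace Pool.Agent.H440.TF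

open Pool.Agent.Y773 (TPos VM cc)
open Pool.Agent.Y772.DK (NN NN_finite cc_mul VM_nonneg VM_pow VM_of_not sum_VM_le)
open Pool.Agent.Y767 (Mq Mq_cop Mq_ne_bot Mq_cancel Cls cls cls_eq cls_pi cK isUnit_mk
  coprime_of_isUnit)
open Pool.Agent.Y773.IQ (ne_zero_of_cop cop_mono cop_one cop_congr cop_mul absNorm_pos' IM mem_IM
  sum_IM sum_cc sum_sq cop_of_norm tM card_units_le_norm)
open Pool.Agent.Helper503_UI (ku)
open Pool.Agent.N784.AD (pi1 cls_card_le)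
open Pool.Agent.N784.HC (FamN Dn Dn0 tM_coe tM_inj tM_mem)
open Pool.Agent.N833.CZ (norm_Dn)
open Pool.Agent.Helper503_HW (sysK rest_le)
open Pool.Agent.Y773.AB (Sys PP mem_PP ev ev_eq card_ker_mul norm_val ms_general nmQ copQ
  max_of_prime VM_of_prime coe_prod ideals_le card_le_fib norm_add_sq_le' Gw Gw_nonneg off_bound
  pp_bound)

section

variable (K : Type) [Field K] [NumberField K]

/-- **the large sieve for a thin family of Hecke characters** -/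
theorem ls_thinT (n : (K →+* ℂ) → ℕ) (θ θ' : ℝ) (h0 : 0 < θ) (h1 : θ < θ') (h3 : θ' ≤ 1 / 3) :
    ∃ c C2 : ℝ, 0 < c ∧ 0 < C2 ∧ ∀ ε : ℝ, 0 < ε → ∃ Ce : ℝ, 0 < Ce ∧
    ∀ (𝔮 : Ideal (𝓞 K)) (_ : 𝔮 ≠ ⊥) (htop : 𝔮 ≠ ⊤) (H : Subgroup (Cls (pi1 htop) →* ℂˣ))
      (_ : ((Nat.card (ev H).ker * ku 𝔮 : ℕ) : ℝ) ≤ (Ideal.absNorm 𝔮 : ℝ) ^ θ)
      (F₁ : Mq 𝔮 →* ℂˣ) (_ : F₁ ∈ Dn n htop)
      (Y : Finset (Ideal (𝓞 K) →*₀ ℂ))
      (_ : ∀ ψ ∈ Y, ψ ∈ FamN n 𝔮 ∧ ∃ F ∈ H, tM 𝔮 ψ = F₁ * F.comp (cls (pi1 htop)))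
      (M : ℕ) (_ : (M : ℝ) ≤ (Ideal.absNorm 𝔮 : ℝ) ^ (1 - θ')) (u w : ℝ) (_ : 0 ≤ u) (_ : 0 ≤ w)
      (b : ℕ → ℂ) (_ : ∀ n, ArithmeticFunction.vonMangoldt n * ‖b n‖ ≤ w * Gw u n)
      (δ : ℝ) (_ : 0 < δ),
    ∑ ψ ∈ Y, ‖∑ m ∈ Finset.Icc 1 M, b m * (if Nat.Coprime m (Ideal.absNorm 𝔮) then
      cc ψ m * (ArithmeticFunction.vonMangoldt m : ℂ) else 0)‖ ^ 2 ≤
      (1 + δ) * (Nat.card H * (∑ m ∈ Finset.Icc 1 M,
          ‖b m‖ ^ 2 * (ArithmeticFunction.vonMangoldt m * ‖cK K m‖) ^ 2 +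
        w ^ 2 * (Ce + ε * (1 + Real.log (Ideal.absNorm 𝔮)) ^ 2 * Real.exp (-(c * u))))) +
      (1 + 1 / δ) * (Y.card * (C2 * w ^ 2)) := by
  classical
  obtain ⟨C0, hC0, hsys⟩ := sysK K
  obtain ⟨c, hc, hoff⟩ := off_bound C0 hC0 θ θ' h0 h1 h3
  obtain ⟨Cp, hCp, hpp⟩ := pp_bound
  obtain ⟨d, hn⟩ : ∃ d : ℝ, d = (Module.finrank ℚ K : ℝ) := ⟨_, rfl⟩
  have hn0 : 0 < d := by
    have := Module.finrank_pos (R := ℚ) (M := K)
    rw [hn]; exact_mod_cast this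
  refine ⟨c, (d * (Cp + 1)) ^ 2, hc, by positivity, fun ε hε => ?_⟩
  obtain ⟨Ce, hCe, hoff⟩ := hoff ε hε
  refine ⟨Ce, hCe, ?_⟩
  intro 𝔮 hbot htop H hV F₁ hF₁ Y hY M hM u w hu hw b hb δ hδ
  have hfc : Finite (Cls (pi1 htop)) := (cls_card_le hbot htop).1
  have hfd := Pool.Agent.Y767.finite_dual (Cls (pi1 htop))
  have hfH : Finite H := inferInstance
  let _ : Fintype H := Fintype.ofFinite H
  obtain ⟨b', hb'⟩ : ∃ b' : ℕ → ℂ, ∀ m, b' m = if Nat.Coprime m (Ideal.absNorm 𝔮) then b m else 0 :=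
    ⟨_, fun _ => rfl⟩
  have hbb' : ∀ m, ‖b' m‖ ≤ ‖b m‖ := by
    intro m
    rw [hb']
    split_ifs
    · exact le_rfl
    · rw [norm_zero]; exact norm_nonneg _
  set S : Finset (Mq 𝔮) := (IM K M).subtype (fun 𝔞 => 𝔞 ∈ Mq 𝔮) with hS
  set a : Mq 𝔮 → ℂ := fun x => b' (Ideal.absNorm (x : Ideal (𝓞 K))) * (VM (x : Ideal (𝓞 K)) : ℂ)
    with ha
  set a' : Mq 𝔮 → ℂ := fun x => a x * ((F₁ x : ℂˣ) : ℂ) with ha'
  have haa' : ∀ x, ‖a' x‖ = ‖a x‖ := by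
    intro x
    rw [ha']
    simp only
    rw [norm_mul, norm_Dn hbot htop hF₁, mul_one]
  set P : Ideal (𝓞 K) → Prop := fun 𝔞 => (Ideal.absNorm 𝔞).Prime ∧ 3 ≤ Ideal.absNorm 𝔞 with hP
  set Sp : Finset (Mq 𝔮) := S.filter (fun x : Mq 𝔮 => P (x : Ideal (𝓞 K))) with hSp
  have hnorm : ∀ ψ ∈ Y, ∀ x : Mq 𝔮, ‖ψ (x : Ideal (𝓞 K))‖ = 1 := by
    intro ψ hψ x
    obtain ⟨h4, F, hF, h5⟩ := hY ψ hψ
    rw [← tM_coe htop h4 x, h5, MonoidHom.mul_apply, Units.val_mul, norm_mul,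
      norm_Dn hbot htop hF₁, one_mul]
    exact norm_val F _
  -- the sums over the monoid
  have hsum : ∀ ψ ∈ Y, ∑ m ∈ Finset.Icc 1 M, b m * (if Nat.Coprime m (Ideal.absNorm 𝔮) then
      cc ψ m * (ArithmeticFunction.vonMangoldt m : ℂ) else 0) =
      ∑ x ∈ S, a x * ψ (x : Ideal (𝓞 K)) := by
    intro ψ hψ
    have h4 : ∑ x ∈ S, a x * ψ (x : Ideal (𝓞 K)) = ∑ x ∈ S,
        (fun 𝔞 : Ideal (𝓞 K) => (b' (Ideal.absNorm 𝔞) * (VM 𝔞 : ℂ)) * ψ 𝔞)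
          (x : Ideal (𝓞 K)) := rfl
    rw [h4]
    refine Eq.trans ?_ (Finset.sum_subtype_eq_sum_filter
      (fun 𝔞 : Ideal (𝓞 K) => (b' (Ideal.absNorm 𝔞) * (VM 𝔞 : ℂ)) * ψ 𝔞)).symm
    rw [Finset.sum_filter_of_ne, ← sum_cc]
    · refine Finset.sum_congr rfl fun m _ => ?_
      rw [hb']
      split_ifs <;> simp
    · intro 𝔞 _ hne
      apply cop_of_norm
      by_contra hcon
      apply hne
      rw [hb', if_neg hcon]
      ring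
  have hrest : ∑ x ∈ S.filter (fun x : Mq 𝔮 => ¬ P (x : Ideal (𝓞 K))), ‖a x‖ ≤ d * (Cp + 1) * w := by
    have h4 : ∑ x ∈ S.filter (fun x : Mq 𝔮 => ¬ P (x : Ideal (𝓞 K))), ‖a x‖ = ∑ x ∈ S,
        (fun 𝔞 : Ideal (𝓞 K) => if P 𝔞 then 0 else ‖b' (Ideal.absNorm 𝔞) * (VM 𝔞 : ℂ)‖)
          (x : Ideal (𝓞 K)) := by
      rw [Finset.sum_filter]
      refine Finset.sum_congr rfl fun x _ => ?_
      by_cases hx : P (x : Ideal (𝓞 K))
      · simp only [hx, not_true_eq_false, if_false, if_true]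
      · simp only [hx, not_false_eq_true, if_true, if_false]
        rfl
    rw [h4, Finset.sum_subtype_eq_sum_filter
      (fun 𝔞 : Ideal (𝓞 K) => if P 𝔞 then 0 else ‖b' (Ideal.absNorm 𝔞) * (VM 𝔞 : ℂ)‖)]
    refine (Finset.sum_le_sum_of_subset_of_nonneg (Finset.filter_subset _ _) ?_).trans ?_
    · intro 𝔞 _ _
      split_ifs
      · exact le_rfl
      · exact norm_nonneg _
    · have h5 := rest_le (K := K) hpp M u w hw b' (fun n => by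
        refine le_trans ?_ (hb n)
        exact mul_le_mul_of_nonneg_left (hbb' n) ArithmeticFunction.vonMangoldt_nonneg)
      rw [← hn] at h5
      refine le_trans (le_of_eq ?_) h5
      refine Finset.sum_congr rfl fun 𝔞 _ => ?_
      congr
  have hsplit : ∀ ψ ∈ Y, ‖∑ m ∈ Finset.Icc 1 M, b m * (if Nat.Coprime m (Ideal.absNorm 𝔮) then
      cc ψ m * (ArithmeticFunction.vonMangoldt m : ℂ) else 0)‖ ^ 2 ≤
      (1 + δ) * ‖∑ x ∈ Sp, a x * ψ (x : Ideal (𝓞 K))‖ ^ 2 +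
        (1 + 1 / δ) * ((d * (Cp + 1)) ^ 2 * w ^ 2) := by
    intro ψ hψ
    rw [hsum ψ hψ, ← Finset.sum_filter_add_sum_filter_not S (fun x : Mq 𝔮 => P (x : Ideal (𝓞 K)))]
    refine (norm_add_sq_le' _ _ hδ).trans ?_
    refine add_le_add le_rfl (mul_le_mul_of_nonneg_left ?_ (by positivity))
    have h4 : ‖∑ x ∈ S.filter (fun x : Mq 𝔮 => ¬ P (x : Ideal (𝓞 K))), a x * ψ (x : Ideal (𝓞 K))‖ ≤
        d * (Cp + 1) * w := by
      refine (norm_sum_le _ _).trans (le_trans (le_of_eq ?_) hrest)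
      refine Finset.sum_congr rfl fun x _ => ?_
      rw [norm_mul, hnorm ψ hψ x, mul_one]
    calc _ ≤ (d * (Cp + 1) * w) ^ 2 := pow_le_pow_left₀ (norm_nonneg _) h4 2
      _ = _ := by ring
  refine (Finset.sum_le_sum hsplit).trans ?_
  rw [Finset.sum_add_distrib, ← Finset.mul_sum, Finset.sum_const, nsmul_eq_mul]
  have hlast : (Y.card : ℝ) * ((1 + 1 / δ) * ((d * (Cp + 1)) ^ 2 * w ^ 2)) =
      (1 + 1 / δ) * (Y.card * ((d * (Cp + 1)) ^ 2 * w ^ 2)) := by ring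
  rw [hlast]
  refine add_le_add (mul_le_mul_of_nonneg_left ?_ (by positivity)) le_rfl
  -- from `Y` to `H`
  have hF : ∀ ψ : Ideal (𝓞 K) →*₀ ℂ, ∃ F : H, ψ ∈ Y → tM 𝔮 ψ =
      F₁ * (F : Cls (pi1 htop) →* ℂˣ).comp (cls (pi1 htop)) := by
    intro ψ
    by_cases hψ : ψ ∈ Y
    · obtain ⟨-, F, hF, h5⟩ := hY ψ hψ
      exact ⟨⟨F, hF⟩, fun _ => h5⟩
    · exact ⟨1, fun h => absurd h hψ⟩
  choose f hf using hF
  have hinj : Set.InjOn f Y := by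
    intro ψ hψ ψ' hψ' h
    rw [Finset.mem_coe] at hψ hψ'
    apply tM_inj hbot htop (hY ψ hψ).1 (hY ψ' hψ').1
    rw [hf ψ hψ, hf ψ' hψ', h]
  have h4 : ∑ ψ ∈ Y, ‖∑ x ∈ Sp, a x * ψ (x : Ideal (𝓞 K))‖ ^ 2 ≤
      ∑ F : H, ‖∑ x ∈ Sp, a' x * (((F : Cls (pi1 htop) →* ℂˣ) (cls (pi1 htop) x) : ℂˣ) : ℂ)‖ ^ 2 := by
    have h5 : ∑ ψ ∈ Y, ‖∑ x ∈ Sp, a x * ψ (x : Ideal (𝓞 K))‖ ^ 2 =
        ∑ F ∈ Y.image f, ‖∑ x ∈ Sp, a' x *
          (((F : Cls (pi1 htop) →* ℂˣ) (cls (pi1 htop) x) : ℂˣ) : ℂ)‖ ^ 2 := by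
      rw [Finset.sum_image hinj]
      refine Finset.sum_congr rfl fun ψ hψ => ?_
      congr 2
      refine Finset.sum_congr rfl fun x _ => ?_
      rw [← tM_coe htop (hY ψ hψ).1 x, hf ψ hψ, MonoidHom.mul_apply, Units.val_mul, ha']
      simp only [MonoidHom.comp_apply]
      ring
    rw [h5]
    exact Finset.sum_le_sum_of_subset_of_nonneg (Finset.subset_univ _) fun _ _ _ => sq_nonneg _
  refine h4.trans ((ms_general (cls (pi1 htop)) H Sp a').trans ?_)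
  rw [Nat.card_eq_fintype_card]
  refine mul_le_mul_of_nonneg_left (add_le_add ?_ ?_) (Nat.cast_nonneg _)
  · calc ∑ x ∈ Sp, ‖a' x‖ ^ 2 = ∑ x ∈ Sp, ‖a x‖ ^ 2 :=
          Finset.sum_congr rfl fun x _ => by rw [haa']
      _ ≤ ∑ x ∈ S, ‖a x‖ ^ 2 :=
          Finset.sum_le_sum_of_subset_of_nonneg (Finset.filter_subset _ _)
            (fun _ _ _ => sq_nonneg _)
      _ = ∑ 𝔞 ∈ (IM K M).filter (fun 𝔞 => 𝔞 ∈ Mq 𝔮),
          ‖b' (Ideal.absNorm 𝔞) * (VM 𝔞 : ℂ)‖ ^ 2 := by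
        rw [hS]
        exact Finset.sum_subtype_eq_sum_filter
          (fun 𝔞 : Ideal (𝓞 K) => ‖b' (Ideal.absNorm 𝔞) * (VM 𝔞 : ℂ)‖ ^ 2)
      _ ≤ ∑ 𝔞 ∈ IM K M, ‖b' (Ideal.absNorm 𝔞) * (VM 𝔞 : ℂ)‖ ^ 2 :=
        Finset.sum_le_sum_of_subset_of_nonneg (Finset.filter_subset _ _)
          (fun _ _ _ => sq_nonneg _)
      _ ≤ ∑ m ∈ Finset.Icc 1 M, ‖b' m‖ ^ 2 * (ArithmeticFunction.vonMangoldt m * ‖cK K m‖) ^ 2 :=
        sum_sq M b'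
      _ ≤ _ := by
        refine Finset.sum_le_sum fun m _ => mul_le_mul_of_nonneg_right ?_ (sq_nonneg _)
        exact pow_le_pow_left₀ (norm_nonneg _) (hbb' m) 2
  · have hs := hsys 𝔮 hbot htop H Sp (fun x hx => (Finset.mem_filter.mp hx).2.1)
    have h5 := hoff hs hV M hM (fun x hx => by
      obtain ⟨h6, h7⟩ := Finset.mem_filter.mp hx
      exact ⟨h7.2, (mem_IM (Finset.mem_subtype.mp h6)).2⟩) u hu
    have h6 : ∀ x ∈ Sp, ‖a' x‖ ≤ w * Gw u (nmQ 𝔮 x) := by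
      intro x hx
      obtain ⟨h6, h7⟩ := Finset.mem_filter.mp hx
      rw [haa', ha]
      simp only
      rw [norm_mul, Complex.norm_real, Real.norm_of_nonneg (VM_nonneg _), VM_of_prime h7.1]
      refine le_trans ?_ (hb _)
      rw [mul_comm]
      exact mul_le_mul_of_nonneg_left (hbb' _) ArithmeticFunction.vonMangoldt_nonneg
    calc _ ≤ ∑ p ∈ PP ((ev H).comp (cls (pi1 htop))) Sp,
          w ^ 2 * (Gw u (nmQ 𝔮 p.1) * Gw u (nmQ 𝔮 p.2)) := by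
          refine Finset.sum_le_sum fun p hp => ?_
          obtain ⟨h7, h8, -, -⟩ := mem_PP.mp hp
          calc _ ≤ (w * Gw u (nmQ 𝔮 p.1)) * (w * Gw u (nmQ 𝔮 p.2)) :=
                mul_le_mul (h6 _ h7) (h6 _ h8) (norm_nonneg _)
                  (mul_nonneg hw (Gw_nonneg _ _))
            _ = _ := by ring
      _ = w ^ 2 * ∑ p ∈ PP ((ev H).comp (cls (pi1 htop))) Sp,
          (Gw u (nmQ 𝔮 p.1) * Gw u (nmQ 𝔮 p.2)) := by rw [Finset.mul_sum]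
      _ ≤ _ := mul_le_mul_of_nonneg_left h5 (sq_nonneg _)

end

end Pool.Agent.H440.TF
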